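import Pool.Agent.TH403.FLP.Fin

set_option autoImplicit false
set_option linter.unusedSectionVars false

/-!
# Flip-depth: definitions and first lemmas

Everything is relative to a finite set `U` of vertices: `comps K U` (library `TH87.RVE`) is the set
of the components of the graph induced by `K` on `U`.
-/

namespace Pool.Agent.Q215.SD

open Finset Classical
open Pool.Agent.H234RC (Hypo NonIso)
open Pool.Agent.TH87.RVE (comps comp mem_comp mem_comps comp_self comp_sub comp_eq comp_of_mem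
  comps_sub comps_nonempty comp_mem_comps comp_closed rch_mono rch_closed comp_closed_eq
  comps_comp comps_eq_union comps_erase comps_map comp_map rch RR rch_symm rch_trans)

variable {V : Type} [Fintype V]

/-- `K'` arises from `K` on the set `U` by a flip with `R` parts. -/
def IsFlip (R : ℕ) (U : Finset V) (K K' : SimpleGraph V) : Prop :=
  ∃ (f : V → Fin R) (M : Fin R → Fin R → Prop), (∀ i j, M i j → M j i) ∧
    ∀ x ∈ U, ∀ y ∈ U, x ≠ y → (K'.Adj x y ↔ ¬ (K.Adj x y ↔ M (f x) (f y)))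

/-- flip-depth at most `d`, flips with `r` parts -/
def FD (r : ℕ) : ℕ → SimpleGraph V → Finset V → Prop
  | 0, _, U => U.card ≤ 1
  | d + 1, K, U => ∃ K' : SimpleGraph V, IsFlip r U K K' ∧ ∀ C ∈ comps K' U, FD r d K' C

/-- the components of `K` on `U` which do not have flip-depth at most `e` -/
noncomputable def Bad (r e : ℕ) (K : SimpleGraph V) (U : Finset V) : Finset (Finset V) :=
  (comps K U).filter (fun C => ¬ FD r e K C)

theorem mem_Bad (r e : ℕ) (K : SimpleGraph V) (U C : Finset V) :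
    C ∈ Bad r e K U ↔ C ∈ comps K U ∧ ¬ FD r e K C := by
  unfold Bad
  rw [mem_filter]

/-- the bound for the number of bad components which can be destroyed by a flip -/
def gg (r : ℕ) : ℕ → ℕ → ℕ
  | 0, R => R * R
  | e + 1, R => 2 ^ R * (gg r e (R * ((R + 1) * r)) + 2)

/-- a large number -/
def NN (r e R : ℕ) : ℕ := gg r e (R * ((R + 1) * r)) + gg r e r + 3

/-- the thresholds -/
def aa (r e R : ℕ) : ℕ → ℕ
  | 0 => 0
  | j + 1 => R * aa r e R j + NN r e R

/-- the number of bad components which are not recognised -/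
def kap (r e R : ℕ) : ℕ := R * aa r e R R

/-! ### Flips -/

theorem isFlip_mono {R : ℕ} {U U' : Finset V} {K K' : SimpleGraph V} (h : IsFlip R U K K')
    (hU : U' ⊆ U) : IsFlip R U' K K' := by
  obtain ⟨f, M, hM, h⟩ := h
  exact ⟨f, M, hM, fun x hx y hy => h x (hU hx) y (hU hy)⟩

theorem isFlip_symm {R : ℕ} {U : Finset V} {K K' : SimpleGraph V} (h : IsFlip R U K K') :
    IsFlip R U K' K := by
  obtain ⟨f, M, hM, h⟩ := h
  refine ⟨f, M, hM, fun x hx y hy hxy => ?_⟩
  have := h x hx y hy hxy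
  tauto

theorem isFlip_refl {R : ℕ} (hR : 1 ≤ R) (U : Finset V) (K : SimpleGraph V) :
    IsFlip R U K K :=
  ⟨fun _ => ⟨0, hR⟩, fun _ _ => False, fun _ _ h => h, fun x _ y _ _ => by tauto⟩

theorem isFlip_of_fintype {I : Type} [Fintype I] {R : ℕ} (hI : Fintype.card I ≤ R)
    {U : Finset V} {K K' : SimpleGraph V} (f : V → I) (M : I → I → Prop)
    (hM : ∀ i j, M i j → M j i)
    (h : ∀ x ∈ U, ∀ y ∈ U, x ≠ y → (K'.Adj x y ↔ ¬ (K.Adj x y ↔ M (f x) (f y)))) :
    IsFlip R U K K' := by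
  have e : I ↪ Fin R := by
    have h1 := Fintype.equivFin I
    exact h1.toEmbedding.trans (Fin.castLEEmb hI)
  refine ⟨fun x => e (f x), fun a b => ∃ i j, e i = a ∧ e j = b ∧ M i j, ?_, ?_⟩
  · rintro a b ⟨i, j, rfl, rfl, hij⟩
    exact ⟨j, i, rfl, rfl, hM i j hij⟩
  · intro x hx y hy hxy
    rw [h x hx y hy hxy]
    have : M (f x) (f y) ↔ ∃ i j, e i = e (f x) ∧ e j = e (f y) ∧ M i j := by
      constructor
      · intro h; exact ⟨_, _, rfl, rfl, h⟩
      · rintro ⟨i, j, hi, hj, hij⟩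
        rw [e.injective hi, e.injective hj] at hij
        exact hij
    rw [this]

theorem isFlip_trans {R S : ℕ} {U : Finset V} {K K' K'' : SimpleGraph V} (h : IsFlip R U K K')
    (h' : IsFlip S U K' K'') : IsFlip (R * S) U K K'' := by
  obtain ⟨f, M, hM, h⟩ := h
  obtain ⟨f', M', hM', h'⟩ := h'
  refine isFlip_of_fintype (I := Fin R × Fin S) (by simp) (fun x => (f x, f' x))
    (fun a b => ¬ (M a.1 b.1 ↔ M' a.2 b.2)) ?_ ?_
  · intro a b hab hc
    apply hab
    have e1 : M a.1 b.1 ↔ M b.1 a.1 := ⟨hM _ _, hM _ _⟩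
    have e2 : M' a.2 b.2 ↔ M' b.2 a.2 := ⟨hM' _ _, hM' _ _⟩
    rw [e1, e2]
    exact hc
  · intro x hx y hy hxy
    have h1 := h x hx y hy hxy
    have h2 := h' x hx y hy hxy
    simp only
    tauto

theorem isFlip_congr {R : ℕ} {U : Finset V} {K K' L L' : SimpleGraph V} (h : IsFlip R U K K')
    (hK : ∀ x ∈ U, ∀ y ∈ U, (K.Adj x y ↔ L.Adj x y))
    (hK' : ∀ x ∈ U, ∀ y ∈ U, (K'.Adj x y ↔ L'.Adj x y)) : IsFlip R U L L' := by
  obtain ⟨f, M, hM, h⟩ := h
  refine ⟨f, M, hM, fun x hx y hy hxy => ?_⟩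
  rw [← hK x hx y hy, ← hK' x hx y hy]
  exact h x hx y hy hxy

/-! ### Components -/

theorem comps_mono_sub (K : SimpleGraph V) {U U' : Finset V} (h : U' ⊆ U) (C' : Finset V)
    (hC' : C' ∈ comps K U') : ∃ C ∈ comps K U, C' ⊆ C := by
  obtain ⟨x, hx, rfl⟩ := (mem_comps K U' C').mp hC'
  refine ⟨comp K U x, comp_mem_comps K U x (h hx), fun y hy => ?_⟩
  rw [mem_comp] at hy ⊢
  exact ⟨h hy.1, rch_mono K U' U h hy.2⟩

/-- a component which lies in a smaller set is a component there -/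
theorem comps_of_sub (K : SimpleGraph V) {U U' : Finset V} (h : U' ⊆ U) (C : Finset V)
    (hC : C ∈ comps K U) (hCU : C ⊆ U') : C ∈ comps K U' := by
  obtain ⟨x, hx⟩ := comps_nonempty K U C hC
  rw [mem_comps]
  refine ⟨x, hCU hx, ?_⟩
  have h1 : comp K U' x = comp K C x := comp_closed_eq K U' C hCU
    (fun a ha b hb hab => comp_closed K U C hC a b ha (h hb) hab) x hx
  have h2 : comp K U x = comp K C x := comp_closed_eq K U C (comps_sub K U C hC)
    (fun a ha b hb hab => comp_closed K U C hC a b ha hb hab) x hx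
  rw [h1, ← h2]
  exact comp_of_mem K U C hC x hx

/-- a set without edges to the rest of `U` which is connected is a component -/
theorem comps_of_closed (K : SimpleGraph V) {U C : Finset V} (hCU : C ⊆ U)
    (hcl : ∀ x ∈ C, ∀ y ∈ U, K.Adj x y → y ∈ C) (hC : comps K C = {C}) : C ∈ comps K U := by
  have h1 : C ∈ comps K C := by rw [hC]; exact mem_singleton_self C
  obtain ⟨x, hx⟩ := comps_nonempty K C C h1
  rw [mem_comps]
  refine ⟨x, hCU hx, ?_⟩
  rw [comp_closed_eq K U C hCU hcl x hx]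
  exact comp_of_mem K C C h1 x hx

theorem comps_disj (K : SimpleGraph V) (U C D : Finset V) (hC : C ∈ comps K U)
    (hD : D ∈ comps K U) (x : V) (hxC : x ∈ C) (hxD : x ∈ D) : C = D := by
  rw [← comp_of_mem K U C hC x hxC, comp_of_mem K U D hD x hxD]

/-- the components of a union of components -/
theorem comps_biUnion (K : SimpleGraph V) (U : Finset V) (J : Finset (Finset V))
    (hJ : J ⊆ comps K U) : comps K (J.biUnion id) = J := by
  have hsub : J.biUnion id ⊆ U := by
    intro x hx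
    rw [mem_biUnion] at hx
    obtain ⟨C, hC, hx⟩ := hx
    exact comps_sub K U C (hJ hC) hx
  ext D
  constructor
  · intro hD
    obtain ⟨C, hC, hDC⟩ := comps_mono_sub K hsub D hD
    obtain ⟨x, hx⟩ := comps_nonempty K _ D hD
    have hxU := comps_sub K _ D hD hx
    rw [mem_biUnion] at hxU
    obtain ⟨E, hE, hxE⟩ := hxU
    have hEC := comps_disj K U E C (hJ hE) hC x hxE (hDC hx)
    have hE2 := comps_of_sub K hsub E (hJ hE) (fun y hy => mem_biUnion.mpr ⟨E, hE, hy⟩)
    have := comps_disj K _ D E hD hE2 x hx hxE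
    rw [this]
    exact hE
  · intro hD
    exact comps_of_sub K hsub D (hJ hD) (fun y hy => mem_biUnion.mpr ⟨D, hD, hy⟩)

theorem comps_congr' (K K' : SimpleGraph V) (U : Finset V)
    (h : ∀ x ∈ U, ∀ y ∈ U, (K.Adj x y ↔ K'.Adj x y)) : comps K U = comps K' U :=
  Pool.Agent.TH403.FLP.comps_congr K K' U h

/-! ### Flip-depth -/

theorem FD_congr (r : ℕ) : ∀ (d : ℕ) (K K' : SimpleGraph V) (U : Finset V),
    (∀ x ∈ U, ∀ y ∈ U, (K.Adj x y ↔ K'.Adj x y)) → FD r d K U → FD r d K' U := by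
  intro d K K' U h hK
  cases d with
  | zero => exact hK
  | succ d =>
    obtain ⟨L, hL, hC⟩ := hK
    exact ⟨L, isFlip_congr hL h (fun _ _ _ _ => Iff.rfl), hC⟩

theorem FD_mono (r : ℕ) : ∀ (d : ℕ) (K : SimpleGraph V) (U U' : Finset V), U' ⊆ U →
    FD r d K U → FD r d K U' := by
  intro d
  induction d with
  | zero => intro K U U' hU h; exact (card_le_card hU).trans h
  | succ d ih =>
    rintro K U U' hU ⟨L, hL, hC⟩
    refine ⟨L, isFlip_mono hL hU, fun C' hC' => ?_⟩
    obtain ⟨C, hC1, hC2⟩ := comps_mono_sub L hU C' hC'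
    exact ih L C C' hC2 (hC C hC1)

theorem FD_succ (r : ℕ) (hr : 1 ≤ r) (d : ℕ) (K : SimpleGraph V) (U : Finset V)
    (h : FD r d K U) : FD r (d + 1) K U :=
  ⟨K, isFlip_refl hr U K, fun C hC => FD_mono r d K U C (comps_sub K U C hC) h⟩

theorem map_symm_map (σ : Equiv.Perm V) (U : Finset V) :
    (U.map σ.toEmbedding).map σ.symm.toEmbedding = U := by
  ext x
  rw [mem_map_equiv, mem_map_equiv]
  simp

theorem FD_map (r : ℕ) : ∀ (d : ℕ) (K K' : SimpleGraph V) (U : Finset V) (σ : Equiv.Perm V),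
    (∀ x ∈ U, ∀ y ∈ U, (K'.Adj (σ x) (σ y) ↔ K.Adj x y)) → FD r d K U →
    FD r d K' (U.map σ.toEmbedding) := by
  intro d
  induction d with
  | zero => intro K K' U σ h hK; rw [FD, card_map]; exact hK
  | succ d ih =>
    rintro K K' U σ h ⟨L, hL, hC⟩
    have hmem : ∀ x, σ x ∈ U.map σ.toEmbedding ↔ x ∈ U := fun x => by
      rw [mem_map_equiv, Equiv.symm_apply_apply]
    let L' : SimpleGraph V := L.comap σ.symm
    have hL' : ∀ x y, L'.Adj (σ x) (σ y) ↔ L.Adj x y := fun x y => by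
      show L.Adj (σ.symm (σ x)) (σ.symm (σ y)) ↔ _
      rw [Equiv.symm_apply_apply, Equiv.symm_apply_apply]
    refine ⟨L', ?_, ?_⟩
    · obtain ⟨f, M, hM, hf⟩ := hL
      refine ⟨fun x => f (σ.symm x), M, hM, fun x hx y hy hxy => ?_⟩
      obtain ⟨x, rfl⟩ := σ.surjective x
      obtain ⟨y, rfl⟩ := σ.surjective y
      rw [hmem] at hx hy
      rw [hL', h x hx y hy]
      simp only [Equiv.symm_apply_apply]
      exact hf x hx y hy (fun e => hxy (congrArg σ e))
    · intro C hC'
      rw [comps_map L L' U (U.map σ.toEmbedding) σ hmem (fun x y _ _ => hL' x y), mem_image] at hC'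
      obtain ⟨D, hD, rfl⟩ := hC'
      exact ih L L' D σ (fun x _ y _ => hL' x y) (hC D hD)

theorem FD_map_iff (r d : ℕ) (K K' : SimpleGraph V) (U : Finset V) (σ : Equiv.Perm V)
    (h : ∀ x ∈ U, ∀ y ∈ U, (K'.Adj (σ x) (σ y) ↔ K.Adj x y)) :
    FD r d K' (U.map σ.toEmbedding) ↔ FD r d K U := by
  constructor
  · intro hK'
    have h2 := FD_map r d K' K (U.map σ.toEmbedding) σ.symm ?_ hK'
    · rwa [map_symm_map] at h2
    · intro x hx y hy
      obtain ⟨x, rfl⟩ := σ.surjective x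
      obtain ⟨y, rfl⟩ := σ.surjective y
      rw [mem_map_equiv, Equiv.symm_apply_apply] at hx hy
      rw [Equiv.symm_apply_apply, Equiv.symm_apply_apply, h x hx y hy]
  · exact FD_map r d K K' U σ h

end Pool.Agent.Q215.SD
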