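import Pool.Agent.Q215.SD.Stm

set_option autoImplicit false
set_option linter.unusedSectionVars false

namespace Pool.Agent.Q215.SD

open Finset Classical
open Pool.Agent.H234RC (Hypo NonIso)
open Pool.Agent.TH87.RVE (comps comp mem_comp mem_comps comp_self comp_sub comp_eq comp_of_mem
  comps_sub comps_nonempty comp_mem_comps comp_closed rch_mono rch_closed comp_closed_eq
  comps_comp comps_eq_union comps_erase comps_map comp_map rch RR rch_symm rch_trans)

theorem s_gap : S_gap := by
  intro N φ hφ S hS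
  by_contra hcon
  push Not at hcon
  have hmono : Monotone (fun j => φ^[j] 0) := by
    apply monotone_nat_of_le_succ
    intro j
    show φ^[j] 0 ≤ φ^[j + 1] 0
    rw [Function.iterate_succ', Function.comp_apply]
    exact hφ _
  choose g hgS hg1 hg2 using fun j : Fin (N + 1) => hcon j.1 (Nat.lt_succ_iff.mp j.2)
  have hinj : Function.Injective g := by
    intro a b hab
    by_contra hne
    rcases lt_or_gt_of_ne hne with h | h
    · have h1 : (a : ℕ) + 1 ≤ b := h
      have h2 := hmono h1
      simp only at h2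
      have h3 := hg2 a
      have h4 := hg1 b
      rw [hab] at h3
      omega
    · have h1 : (b : ℕ) + 1 ≤ a := h
      have h2 := hmono h1
      simp only at h2
      have h3 := hg2 b
      have h4 := hg1 a
      rw [← hab] at h3
      omega
  have h1 : (univ.image g).card ≤ S.card := card_le_card (fun x hx => by
    rw [mem_image] at hx
    obtain ⟨j, _, rfl⟩ := hx
    exact hgS j)
  rw [card_image_of_injective _ hinj, card_univ, Fintype.card_fin] at h1
  omega

/-- the bad components contained in a good component of the larger set -/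
theorem count_sub (hcount : S_count) {V : Type} [Fintype V] (r : ℕ) (hr : 1 ≤ r) (e : ℕ)
    (U C : Finset V) (K : SimpleGraph V) (hC : FD r (e + 1) K C) (J : Finset (Finset V))
    (hJ : J ⊆ comps K U) (hJb : ∀ D ∈ J, ¬ FD r e K D) (hJC : ∀ D ∈ J, D ⊆ C) :
    J.card ≤ gg r e r := by
  obtain ⟨K', hK', hc⟩ := hC
  have hsub : J.biUnion id ⊆ C := by
    intro x hx
    rw [mem_biUnion] at hx
    obtain ⟨D, hD, hx⟩ := hx
    exact hJC D hD hx
  have hJ2 := comps_biUnion K U J hJ
  have := hcount V r hr e r (J.biUnion id) K K' (isFlip_mono hK' hsub)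
    (by rw [hJ2]; exact hJb)
    (by
      intro D hD
      obtain ⟨E, hE, hDE⟩ := comps_mono_sub K' hsub D hD
      exact FD_mono r e K' E D hDE (hc E hE))
  rwa [hJ2] at this

theorem s_del (hcount : S_count) : S_del := by
  intro V _ r hr e U K v hU
  by_cases hv : v ∈ U
  swap
  · rw [erase_eq_of_notMem hv, sdiff_self]
    exact Nat.zero_le _
  have hC := comp_mem_comps K U v hv
  have hvC := comp_self K U v hv
  apply count_sub hcount r hr e (U.erase v) (comp K U v) K (hU _ hC)
  · intro D hD
    rw [mem_sdiff, mem_Bad] at hD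
    exact hD.1.1
  · intro D hD
    rw [mem_sdiff, mem_Bad] at hD
    exact hD.1.2
  · intro D hD
    rw [mem_sdiff, mem_Bad, mem_Bad] at hD
    obtain ⟨⟨h1, h2⟩, h3⟩ := hD
    rw [comps_erase K U _ hC v hvC, mem_union] at h1
    rcases h1 with h1 | h1
    · exact (comps_sub K _ D h1).trans (erase_subset _ _)
    · exfalso
      apply h3
      refine ⟨?_, h2⟩
      rw [comps_eq_union K U _ hC, mem_union]
      exact Or.inr h1

theorem mem_tr {V : Type} [Fintype V] (F : Finset (Finset V)) (v : V) (σ : Equiv.Perm V)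
    (C : Finset V) : C ∈ tr F v σ ↔ ∃ D ∈ F, v ∉ D ∧ D.map σ.toEmbedding = C := by
  unfold tr
  rw [mem_image]
  constructor
  · rintro ⟨D, hD, h⟩
    rw [mem_filter] at hD
    exact ⟨D, hD.1, hD.2, h⟩
  · rintro ⟨D, hD, hv, h⟩
    exact ⟨D, mem_filter.mpr ⟨hD, hv⟩, h⟩

theorem s_star (hrig : S_rigid) (hdel : S_del) : S_star := by
  intro V _ r hr e R G H K π hH hK hU v w
  -- transported flips
  let KK : V → SimpleGraph V := fun v => K.comap (π v).symm
  have hKK : ∀ v x y, (KK v).Adj (π v x) (π v y) ↔ K.Adj x y := fun v x y => by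
    show K.Adj ((π v).symm (π v x)) ((π v).symm (π v y)) ↔ _
    rw [Equiv.symm_apply_apply, Equiv.symm_apply_apply]
  have hcK : ∀ v, comps (KK v) univ = (comps K univ).image (fun D => D.map (π v).toEmbedding) :=
    fun v => comps_map K (KK v) univ univ (π v) (fun x => by simp) (fun x y _ _ => hKK v x y)
  have hFD : ∀ v d D, FD r d (KK v) (D.map (π v).toEmbedding) ↔ FD r d K D := fun v d D =>
    FD_map_iff r d K (KK v) D (π v) (fun x _ y _ => hKK v x y)
  have hBad : ∀ v, Bad r e (KK v) univ = (Bad r e K univ).image (fun D => D.map (π v).toEmbedding) := by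
    intro v
    ext C
    rw [mem_Bad, hcK, mem_image, mem_image]
    constructor
    · rintro ⟨⟨D, hD, rfl⟩, h⟩
      exact ⟨D, (mem_Bad _ _ _ _ _).mpr ⟨hD, fun h' => h ((hFD v e D).mpr h')⟩, rfl⟩
    · rintro ⟨D, hD, rfl⟩
      rw [mem_Bad] at hD
      exact ⟨⟨D, hD.1, rfl⟩, fun h => hD.2 ((hFD v e D).mp h)⟩
  have hgood : ∀ v, ∀ C ∈ comps (KK v) univ, FD r (e + 1) (KK v) C := by
    intro v C hC
    rw [hcK, mem_image] at hC
    obtain ⟨D, hD, rfl⟩ := hC
    exact (hFD v _ D).mpr (hU D hD)
  have hflip : ∀ v, IsFlip R (univ.erase v) H (KK v) := by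
    intro v
    obtain ⟨f, M, hM, hf⟩ := hK
    refine ⟨fun x => f ((π v).symm x), M, hM, fun x hx y hy hxy => ?_⟩
    obtain ⟨x, rfl⟩ := (π v).surjective x
    obtain ⟨y, rfl⟩ := (π v).surjective y
    have hx' : x ≠ v := fun h => (mem_erase.mp hx).1 (by rw [h, hH.fix])
    have hy' : y ≠ v := fun h => (mem_erase.mp hy).1 (by rw [h, hH.fix])
    rw [hKK, hH.adj v x y hx' hy']
    simp only [Equiv.symm_apply_apply]
    exact hf x (mem_univ _) y (mem_univ _) (fun h => hxy (congrArg _ h))
  set U : Finset V := (univ.erase v).erase w with hUdef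
  have hUv : U ⊆ univ.erase v := erase_subset _ _
  have hUw : U ⊆ univ.erase w := by
    intro x hx
    rw [hUdef, mem_erase, mem_erase] at hx
    exact mem_erase.mpr ⟨hx.1, mem_univ _⟩
  have hvw : IsFlip (R * R) U (KK v) (KK w) :=
    isFlip_trans (isFlip_symm (isFlip_mono (hflip v) hUv)) (isFlip_mono (hflip w) hUw)
  have hgoodU : ∀ v (W : Finset V), ∀ C ∈ comps (KK v) W, FD r (e + 1) (KK v) C := by
    intro v W C hC
    obtain ⟨D, hD, hCD⟩ := comps_mono_sub (KK v) (subset_univ W) C hC
    exact FD_mono r _ _ D C hCD (hgood v D hD)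
  have h1 := hrig V r hr e (R * R) U (KK v) (KK w) hvw (hgoodU v U) (hgoodU w U)
  -- deletion of two vertices for `KK w`
  have h2 := hdel V r hr e univ (KK w) v (hgoodU w univ)
  have h3 := hdel V r hr e (univ.erase v) (KK w) w (hgoodU w _)
  rw [← hUdef] at h3
  have hsub : tr (Bad r e K univ) v (π v) \ tr (Bad r e K univ) w (π w) ⊆
      ((Bad r e (KK v) univ).filter (fun C => w ∈ C)) ∪ ((Bad r e (KK v) U \ Bad r e (KK w) U) ∪
        ((Bad r e (KK w) U \ Bad r e (KK w) (univ.erase v)) ∪
          (Bad r e (KK w) (univ.erase v) \ Bad r e (KK w) univ))) := by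
    intro C hC
    rw [mem_sdiff, mem_tr] at hC
    obtain ⟨⟨D, hD, hvD, rfl⟩, hCw⟩ := hC
    set C := D.map (π v).toEmbedding with hCdef
    have hCB : C ∈ Bad r e (KK v) univ := by
      rw [hBad]
      exact mem_image.mpr ⟨D, hD, rfl⟩
    have hvC : v ∉ C := by
      rw [hCdef, mem_map_equiv]
      intro h
      apply hvD
      have : (π v).symm v = v := by rw [Equiv.symm_apply_eq, hH.fix]
      rwa [this] at h
    by_cases hwC : w ∈ C
    · rw [mem_union, mem_filter]
      exact Or.inl ⟨hCB, hwC⟩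
    have hCU : C ⊆ U := by
      intro x hx
      rw [hUdef, mem_erase, mem_erase]
      exact ⟨fun h => hwC (h ▸ hx), fun h => hvC (h ▸ hx), mem_univ _⟩
    have hCBU : C ∈ Bad r e (KK v) U := by
      rw [mem_Bad] at hCB ⊢
      exact ⟨comps_of_sub (KK v) (subset_univ U) C hCB.1 hCU, hCB.2⟩
    rw [mem_union, mem_union, mem_union, mem_sdiff, mem_sdiff, mem_sdiff]
    right
    by_cases g1 : C ∈ Bad r e (KK w) U
    · right
      by_cases g2 : C ∈ Bad r e (KK w) (univ.erase v)
      · right
        refine ⟨g2, fun g3 => hCw ?_⟩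
        rw [hBad, mem_image] at g3
        obtain ⟨E, hE, hEC⟩ := g3
        rw [mem_tr]
        refine ⟨E, hE, fun hwE => hwC ?_, hEC⟩
        rw [← hEC, mem_map_equiv]
        have : (π w).symm w = w := by rw [Equiv.symm_apply_eq, hH.fix]
        rwa [this]
      · exact Or.inl ⟨g1, g2⟩
    · exact Or.inl ⟨hCBU, g1⟩
  have h0 : ((Bad r e (KK v) univ).filter (fun C => w ∈ C)).card ≤ 1 := by
    rw [card_le_one]
    intro C hC D hD
    rw [mem_filter, mem_Bad] at hC hD
    exact comps_disj (KK v) univ C D hC.1.1 hD.1.1 w hC.2 hD.2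
  have h4 := card_le_card hsub
  have h5 := card_union_le ((Bad r e (KK v) univ).filter (fun C => w ∈ C))
    ((Bad r e (KK v) U \ Bad r e (KK w) U) ∪
        ((Bad r e (KK w) U \ Bad r e (KK w) (univ.erase v)) ∪
          (Bad r e (KK w) (univ.erase v) \ Bad r e (KK w) univ)))
  have h6 := card_union_le (Bad r e (KK v) U \ Bad r e (KK w) U)
        ((Bad r e (KK w) U \ Bad r e (KK w) (univ.erase v)) ∪
          (Bad r e (KK w) (univ.erase v) \ Bad r e (KK w) univ))
  have h7 := card_union_le (Bad r e (KK w) U \ Bad r e (KK w) (univ.erase v))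
    (Bad r e (KK w) (univ.erase v) \ Bad r e (KK w) univ)
  omega

end Pool.Agent.Q215.SD
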