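import Pool.Agent.Q215.SD.Del

set_option autoImplicit false
set_option linter.unusedSectionVars false

/-!
# Recognition of a family of components: relations of near twins
-/

namespace Pool.Agent.Q215.SD

open Finset Classical
open Pool.Agent.H234RC (Hypo NonIso)
open Pool.Agent.TH87.RVE (comps comp mem_comp mem_comps comp_self comp_sub comp_eq comp_of_mem
  comps_sub comps_nonempty comp_mem_comps comp_closed rch_mono rch_closed comp_closed_eq
  comps_comp comps_eq_union comps_erase comps_map comp_map rch RR rch_symm rch_trans)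
open Pool.Agent.TH403.FLP (flipG)

variable {V : Type} [Fintype V]

theorem filt_le (F Hf : Finset (Finset V)) (v : V) (σ : Equiv.Perm V) (κ : ℕ)
    (h1 : (Hf \ tr F v σ).card ≤ κ) (Φ Ψ : Finset V → Prop) [DecidablePred Φ] [DecidablePred Ψ]
    (hΦ : ∀ C ∈ F, v ∉ C → Φ (C.map σ.toEmbedding) → Ψ C) :
    (Hf.filter Φ).card ≤ (F.filter Ψ).card + κ := by
  have hsub : Hf.filter Φ ⊆ (Hf \ tr F v σ) ∪
      (F.filter Ψ).image (fun C => C.map σ.toEmbedding) := by
    intro C hC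
    rw [mem_filter] at hC
    rw [mem_union, mem_sdiff, mem_image]
    by_cases h : C ∈ tr F v σ
    · right
      rw [mem_tr] at h
      obtain ⟨D, hD, hv, rfl⟩ := h
      exact ⟨D, mem_filter.mpr ⟨hD, hΦ D hD hv hC.2⟩, rfl⟩
    · exact Or.inl ⟨hC.1, h⟩
  have h2 := card_le_card hsub
  have h3 := card_union_le (Hf \ tr F v σ) ((F.filter Ψ).image (fun C => C.map σ.toEmbedding))
  have h4 : ((F.filter Ψ).image (fun C => C.map σ.toEmbedding)).card ≤ (F.filter Ψ).card :=
    card_image_le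
  omega

theorem filt_ge (F Hf : Finset (Finset V)) (v : V) (σ : Equiv.Perm V) (κ : ℕ)
    (h1 : (tr F v σ \ Hf).card ≤ κ) (hd : ∀ C ∈ F, ∀ D ∈ F, ∀ x ∈ C, x ∈ D → C = D)
    (Φ Ψ : Finset V → Prop) [DecidablePred Φ] [DecidablePred Ψ]
    (hΨ : ∀ C ∈ F, v ∉ C → Ψ C → Φ (C.map σ.toEmbedding)) :
    (F.filter Ψ).card ≤ (Hf.filter Φ).card + κ + 1 := by
  have hsub : F.filter Ψ ⊆ (F.filter (fun C => v ∈ C)) ∪ (F.filter (fun C => v ∉ C ∧ Ψ C)) := by
    intro C hC
    rw [mem_filter] at hC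
    rw [mem_union, mem_filter, mem_filter]
    by_cases h : v ∈ C
    · exact Or.inl ⟨hC.1, h⟩
    · exact Or.inr ⟨hC.1, h, hC.2⟩
  have h2 := card_le_card hsub
  have h3 := card_union_le (F.filter (fun C => v ∈ C)) (F.filter (fun C => v ∉ C ∧ Ψ C))
  have h4 : (F.filter (fun C => v ∈ C)).card ≤ 1 := by
    rw [card_le_one]
    intro C hC D hD
    rw [mem_filter] at hC hD
    exact hd C hC.1 D hD.1 v hC.2 hD.2
  have h5 : (F.filter (fun C => v ∉ C ∧ Ψ C)).card =
      ((F.filter (fun C => v ∉ C ∧ Ψ C)).image (fun C => C.map σ.toEmbedding)).card :=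
    (card_image_of_injective _ (Finset.map_injective σ.toEmbedding)).symm
  have h6 : (F.filter (fun C => v ∉ C ∧ Ψ C)).image (fun C => C.map σ.toEmbedding) ⊆
      (tr F v σ \ Hf) ∪ Hf.filter Φ := by
    intro C hC
    rw [mem_image] at hC
    obtain ⟨D, hD, rfl⟩ := hC
    rw [mem_filter] at hD
    rw [mem_union, mem_sdiff, mem_filter, mem_tr]
    by_cases h : D.map σ.toEmbedding ∈ Hf
    · exact Or.inr ⟨h, hΨ D hD.1 hD.2.1 hD.2.2⟩
    · exact Or.inl ⟨⟨D, hD.1, hD.2.1, rfl⟩, h⟩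
  have h7 := card_le_card h6
  have h8 := card_union_le (tr F v σ \ Hf) (Hf.filter Φ)
  omega

/-- the number of members of `F` on which the labels `i`, `j` act differently -/
noncomputable def mD {r : ℕ} (f : V → Fin r) (P : Fin r → Fin r → Prop) (F : Finset (Finset V))
    (i j : Fin r) : ℕ :=
  (F.filter (fun C => ∃ z ∈ C, ¬ (P i (f z) ↔ P j (f z)))).card

/-- the number of members of `F` which contain a vertex with label `q` -/
noncomputable def mq {r : ℕ} (f : V → Fin r) (F : Finset (Finset V)) (q : Fin r) : ℕ :=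
  (F.filter (fun C => ∃ z ∈ C, f z = q)).card

/-- the number of members of `F` which distinguish `x` and `y` -/
noncomputable def cnt (K : SimpleGraph V) (F : Finset (Finset V)) (x y : V) : ℕ :=
  (F.filter (fun C => x ∉ C ∧ y ∉ C ∧ ∃ z ∈ C, ¬ (K.Adj x z ↔ K.Adj y z))).card

/-- the number of members of `F` which contain a vertex similar to `y` -/
noncomputable def np (F : Finset (Finset V)) (E : V → V → Prop) (y : V) : ℕ :=
  (F.filter (fun C => ∃ z ∈ C, E z y)).card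

/-- the number of members of `F` all of whose vertices similar to `y` are adjacent to `x` -/
noncomputable def mm (K : SimpleGraph V) (F : Finset (Finset V)) (E : V → V → Prop) (x y : V) : ℕ :=
  (F.filter (fun C => x ∉ C ∧ (∃ z ∈ C, E z y) ∧ ∀ z ∈ C, E z y → K.Adj x z)).card

/-- the assumptions -/
structure Setup (G H : SimpleGraph V) (π : V → Equiv.Perm V) (r κ θ Θ : ℕ) (f : V → Fin r)
    (P : Fin r → Fin r → Prop) (F : Finset (Finset V)) : Prop where
  hyp : Hypo G H π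
  symm : ∀ i j, P i j → P j i
  adj : ∀ C ∈ F, ∀ x, x ∉ C → ∀ y ∈ C, (G.Adj x y ↔ P (f x) (f y))
  disj : ∀ C ∈ F, ∀ D ∈ F, ∀ x ∈ C, x ∈ D → C = D
  ne : ∀ C ∈ F, C.Nonempty
  close : ∀ v w : V, (tr F v (π v) \ tr F w (π w)).card ≤ κ
  gapD : ∀ i j, mD f P F i j ≤ θ ∨ Θ < mD f P F i j
  gapq : ∀ q, mq f F q ≤ θ ∨ Θ < mq f F q
  large : 2 * ((r * r + r + 1) * θ) + 2 * κ + 8 ≤ Θ
  big : κ + 2 * ((r * r + r) * θ) + 10 ≤ F.card

section setup

variable {G H : SimpleGraph V} {π : V → Equiv.Perm V} {r κ θ Θ : ℕ} {f : V → Fin r}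
  {P : Fin r → Fin r → Prop} {F : Finset (Finset V)} (S : Setup G H π r κ θ Θ f P F)

/-- the typical members -/
noncomputable def TY (θ Θ : ℕ) (f : V → Fin r) (P : Fin r → Fin r → Prop)
    (F : Finset (Finset V)) : Finset (Finset V) :=
  F.filter (fun C => (∀ i j, mD f P F i j ≤ θ → ∀ z ∈ C, (P i (f z) ↔ P j (f z))) ∧
    ∀ z ∈ C, Θ < mq f F (f z))

theorem mem_TY (C : Finset V) : C ∈ TY θ Θ f P F ↔ C ∈ F ∧
    (∀ i j, mD f P F i j ≤ θ → ∀ z ∈ C, (P i (f z) ↔ P j (f z))) ∧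
    ∀ z ∈ C, Θ < mq f F (f z) := by
  unfold TY
  rw [mem_filter]

include S in
theorem card_TY : (F \ TY θ Θ f P F).card ≤ (r * r + r) * θ := by
  have hsub : F \ TY θ Θ f P F ⊆
      ((univ : Finset (Fin r × Fin r)).filter (fun p => mD f P F p.1 p.2 ≤ θ)).biUnion
        (fun p => F.filter (fun C => ∃ z ∈ C, ¬ (P p.1 (f z) ↔ P p.2 (f z)))) ∪
      ((univ : Finset (Fin r)).filter (fun q => mq f F q ≤ θ)).biUnion
        (fun q => F.filter (fun C => ∃ z ∈ C, f z = q)) := by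
    intro C hC
    rw [mem_sdiff, mem_TY] at hC
    rw [mem_union, mem_biUnion, mem_biUnion]
    by_cases h : ∀ i j, mD f P F i j ≤ θ → ∀ z ∈ C, (P i (f z) ↔ P j (f z))
    · right
      have h2 : ¬ ∀ z ∈ C, Θ < mq f F (f z) := fun h2 => hC.2 ⟨hC.1, h, h2⟩
      push Not at h2
      obtain ⟨z, hz, hq⟩ := h2
      have hq2 : mq f F (f z) ≤ θ := by
        rcases S.gapq (f z) with h3 | h3
        · exact h3
        · omega
      exact ⟨f z, mem_filter.mpr ⟨mem_univ _, hq2⟩, mem_filter.mpr ⟨hC.1, z, hz, rfl⟩⟩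
    · left
      push Not at h
      obtain ⟨i, j, hij, z, hz, hd⟩ := h
      refine ⟨(i, j), mem_filter.mpr ⟨mem_univ _, hij⟩, mem_filter.mpr ⟨hC.1, z, hz, ?_⟩⟩
      tauto
  refine le_trans (card_le_card hsub) (le_trans (card_union_le _ _) ?_)
  have h1 : (((univ : Finset (Fin r × Fin r)).filter (fun p => mD f P F p.1 p.2 ≤ θ)).biUnion
        (fun p => F.filter (fun C => ∃ z ∈ C, ¬ (P p.1 (f z) ↔ P p.2 (f z))))).card ≤
        r * r * θ := by
    refine le_trans card_biUnion_le ?_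
    refine le_trans (sum_le_card_nsmul _ _ θ ?_) ?_
    · intro p hp
      rw [mem_filter] at hp
      exact hp.2
    · rw [smul_eq_mul]
      apply Nat.mul_le_mul_right
      refine le_trans (card_filter_le _ _) ?_
      rw [card_univ, Fintype.card_prod, Fintype.card_fin]
  have h2 : (((univ : Finset (Fin r)).filter (fun q => mq f F q ≤ θ)).biUnion
        (fun q => F.filter (fun C => ∃ z ∈ C, f z = q))).card ≤ r * θ := by
    refine le_trans card_biUnion_le ?_
    refine le_trans (sum_le_card_nsmul _ _ θ ?_) ?_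
    · intro p hp
      rw [mem_filter] at hp
      exact hp.2
    · rw [smul_eq_mul]
      apply Nat.mul_le_mul_right
      refine le_trans (card_filter_le _ _) ?_
      rw [card_univ, Fintype.card_fin]
  rw [add_mul]
  exact Nat.add_le_add h1 h2

/-- near twins in `G` -/
def EG (θ : ℕ) (f : V → Fin r) (P : Fin r → Fin r → Prop) (F : Finset (Finset V)) (x y : V) :
    Prop := mD f P F (f x) (f y) ≤ θ

theorem mD_self (i : Fin r) : mD f P F i i = 0 := by
  unfold mD
  rw [card_eq_zero, filter_eq_empty_iff]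
  rintro C _ ⟨z, _, h⟩
  exact h Iff.rfl

theorem mD_comm (i j : Fin r) : mD f P F i j = mD f P F j i := by
  unfold mD
  congr 1
  apply filter_congr
  intro C _
  constructor
  · rintro ⟨z, hz, h⟩
    exact ⟨z, hz, fun h' => h h'.symm⟩
  · rintro ⟨z, hz, h⟩
    exact ⟨z, hz, fun h' => h h'.symm⟩

theorem mD_tri (i j k : Fin r) : mD f P F i k ≤ mD f P F i j + mD f P F j k := by
  unfold mD
  refine le_trans (card_le_card ?_) (card_union_le _ _)
  intro C hC
  rw [mem_union, mem_filter, mem_filter]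
  rw [mem_filter] at hC
  obtain ⟨hC, z, hz, h⟩ := hC
  by_cases h1 : P i (f z) ↔ P j (f z)
  · exact Or.inr ⟨hC, z, hz, fun h2 => h (h1.trans h2)⟩
  · exact Or.inl ⟨hC, z, hz, h1⟩

theorem EG_refl (x : V) : EG θ f P F x x := by
  unfold EG
  rw [mD_self]
  exact Nat.zero_le _

theorem EG_symm {x y : V} (h : EG θ f P F x y) : EG θ f P F y x := by
  unfold EG at *
  rwa [mD_comm]

include S in
theorem EG_trans {x y z : V} (h : EG θ f P F x y) (h' : EG θ f P F y z) : EG θ f P F x z := by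
  unfold EG at *
  have h1 := mD_tri (f := f) (P := P) (F := F) (f x) (f y) (f z)
  rcases S.gapD (f x) (f z) with h2 | h2
  · exact h2
  · have h3 := S.large
    have h4 : θ ≤ (r * r + r + 1) * θ := Nat.le_mul_of_pos_left θ (by omega)
    omega

include S in
theorem cnt_le (x y : V) : cnt G F x y ≤ mD f P F (f x) (f y) := by
  unfold cnt mD
  apply card_le_card
  intro C hC
  rw [mem_filter] at hC ⊢
  obtain ⟨hC, hx, hy, z, hz, h⟩ := hC
  refine ⟨hC, z, hz, ?_⟩
  rwa [S.adj C hC x hx z hz, S.adj C hC y hy z hz] at h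

include S in
theorem card_mem_le (x : V) : (F.filter (fun C => x ∈ C)).card ≤ 1 := by
  rw [card_le_one]
  intro C hC D hD
  rw [mem_filter] at hC hD
  exact S.disj C hC.1 D hD.1 x hC.2 hD.2

include S in
theorem mD_le (x y : V) : mD f P F (f x) (f y) ≤ cnt G F x y + 2 := by
  unfold cnt mD
  have hsub : F.filter (fun C => ∃ z ∈ C, ¬ (P (f x) (f z) ↔ P (f y) (f z))) ⊆
      F.filter (fun C => x ∉ C ∧ y ∉ C ∧ ∃ z ∈ C, ¬ (G.Adj x z ↔ G.Adj y z)) ∪
        (F.filter (fun C => x ∈ C) ∪ F.filter (fun C => y ∈ C)) := by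
    intro C hC
    rw [mem_filter] at hC
    obtain ⟨hC, z, hz, h⟩ := hC
    rw [mem_union, mem_union, mem_filter, mem_filter, mem_filter]
    by_cases hx : x ∈ C
    · exact Or.inr (Or.inl ⟨hC, hx⟩)
    by_cases hy : y ∈ C
    · exact Or.inr (Or.inr ⟨hC, hy⟩)
    refine Or.inl ⟨hC, hx, hy, z, hz, ?_⟩
    rwa [S.adj C hC x hx z hz, S.adj C hC y hy z hz]
  have h1 := card_le_card hsub
  have h2 := card_union_le (F.filter (fun C => x ∉ C ∧ y ∉ C ∧ ∃ z ∈ C,
    ¬ (G.Adj x z ↔ G.Adj y z))) (F.filter (fun C => x ∈ C) ∪ F.filter (fun C => y ∈ C))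
  have h3 := card_union_le (F.filter (fun C => x ∈ C)) (F.filter (fun C => y ∈ C))
  have h4 := card_mem_le S x
  have h5 := card_mem_le S y
  omega

/-- near twins in `H` -/
def EH (θ κ : ℕ) (H : SimpleGraph V) (Hf : Finset (Finset V)) (x y : V) : Prop :=
  cnt H Hf x y ≤ θ + κ

include S in
theorem symm_fix (v : V) : (π v).symm v = v := by
  rw [Equiv.symm_apply_eq, S.hyp.fix]

include S in
theorem pi_ne' (v z : V) : π v z ≠ v ↔ z ≠ v := by
  rw [← (π v).injective.ne_iff (x := z), S.hyp.fix]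

include S in
theorem adj_map (v : V) (C : Finset V) (hC : v ∉ C) (u : V) (hu : u ≠ v) (z : V)
    (hz : z ∈ C) : H.Adj (π v u) (π v z) ↔ G.Adj u z :=
  S.hyp.adj v u z hu (fun e => hC (e ▸ hz))

theorem mem_map' (σ : Equiv.Perm V) (C : Finset V) (x : V) :
    σ x ∈ C.map σ.toEmbedding ↔ x ∈ C := by
  rw [mem_map_equiv, Equiv.symm_apply_apply]

theorem exists_map' (σ : Equiv.Perm V) (C : Finset V) (p : V → Prop) :
    (∃ z ∈ C.map σ.toEmbedding, p z) ↔ ∃ z ∈ C, p (σ z) := by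
  constructor
  · rintro ⟨z, hz, h⟩
    obtain ⟨z, rfl⟩ := σ.surjective z
    exact ⟨z, (mem_map' σ C z).mp hz, h⟩
  · rintro ⟨z, hz, h⟩
    exact ⟨σ z, (mem_map' σ C z).mpr hz, h⟩

theorem forall_map' (σ : Equiv.Perm V) (C : Finset V) (p : V → Prop) :
    (∀ z ∈ C.map σ.toEmbedding, p z) ↔ ∀ z ∈ C, p (σ z) := by
  constructor
  · intro h z hz
    exact h _ ((mem_map' σ C z).mpr hz)
  · intro h z hz
    obtain ⟨z, rfl⟩ := σ.surjective z
    exact h z ((mem_map' σ C z).mp hz)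

include S in
theorem EH_iff (v0 v u u' : V) (hu : u ≠ v) (hu' : u' ≠ v) :
    EH θ κ H (tr F v0 (π v0)) (π v u) (π v u') ↔ EG θ f P F u u' := by
  have hiff : ∀ C ∈ F, v ∉ C → ((π v u ∉ C.map (π v).toEmbedding ∧ π v u' ∉ C.map (π v).toEmbedding ∧
      ∃ z ∈ C.map (π v).toEmbedding, ¬ (H.Adj (π v u) z ↔ H.Adj (π v u') z)) ↔
      (u ∉ C ∧ u' ∉ C ∧ ∃ z ∈ C, ¬ (G.Adj u z ↔ G.Adj u' z))) := by
    intro C hC hv
    rw [mem_map', mem_map', exists_map']
    constructor
    · rintro ⟨h1, h2, z, hz, h3⟩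
      rw [adj_map S v C hv u hu z hz, adj_map S v C hv u' hu' z hz] at h3
      exact ⟨h1, h2, z, hz, h3⟩
    · rintro ⟨h1, h2, z, hz, h3⟩
      refine ⟨h1, h2, z, hz, ?_⟩
      rwa [adj_map S v C hv u hu z hz, adj_map S v C hv u' hu' z hz]
  have h1 := filt_le F (tr F v0 (π v0)) v (π v) κ (S.close v0 v)
    (fun C => π v u ∉ C ∧ π v u' ∉ C ∧ ∃ z ∈ C, ¬ (H.Adj (π v u) z ↔ H.Adj (π v u') z))
    (fun C => u ∉ C ∧ u' ∉ C ∧ ∃ z ∈ C, ¬ (G.Adj u z ↔ G.Adj u' z))
    (fun C hC hv h => (hiff C hC hv).mp h)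
  have h2 := filt_ge F (tr F v0 (π v0)) v (π v) κ (S.close v v0) S.disj
    (fun C => π v u ∉ C ∧ π v u' ∉ C ∧ ∃ z ∈ C, ¬ (H.Adj (π v u) z ↔ H.Adj (π v u') z))
    (fun C => u ∉ C ∧ u' ∉ C ∧ ∃ z ∈ C, ¬ (G.Adj u z ↔ G.Adj u' z))
    (fun C hC hv h => (hiff C hC hv).mpr h)
  have h3 := cnt_le S u u'
  have h4 := mD_le S u u'
  have h5 := S.large
  have h6 : θ ≤ (r * r + r + 1) * θ := Nat.le_mul_of_pos_left θ (by omega)
  unfold EH EG
  unfold cnt at *
  rcases S.gapD (f u) (f u') with h7 | h7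
  · exact ⟨fun _ => h7, fun _ => by omega⟩
  · constructor
    · intro h; omega
    · intro h; omega

include S in
theorem card_V : 10 ≤ Fintype.card V := by
  have hb := S.big
  obtain ⟨C0, hC0⟩ : F.Nonempty := card_pos.mp (by omega)
  obtain ⟨x0, _⟩ := S.ne C0 hC0
  have : Nonempty V := ⟨x0⟩
  choose! g hg using S.ne
  have hinj : Set.InjOn g (F : Set (Finset V)) := by
    intro C hC D hD h
    exact S.disj C hC D hD (g C) (hg C hC) (h ▸ hg D hD)
  have h1 := card_le_card_of_injOn (s := F) (t := univ) g (fun _ _ => mem_univ _) hinj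
  rw [card_univ] at h1
  have := S.big
  omega

include S in
theorem exists_ne3 (x y z : V) : ∃ v : V, x ≠ v ∧ y ≠ v ∧ z ≠ v := by
  have h : ({x, y, z} : Finset V).card < (univ : Finset V).card := by
    rw [card_univ]
    have := card_V S
    have h2 := card_le_three (a := x) (b := y) (c := z)
    omega
  obtain ⟨v, _, hv⟩ := exists_mem_notMem_of_card_lt_card h
  rw [mem_insert, mem_insert, mem_singleton, not_or, not_or] at hv
  exact ⟨v, fun e => hv.1 e.symm, fun e => hv.2.1 e.symm, fun e => hv.2.2 e.symm⟩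

include S in
theorem symm_ne (v x : V) (hx : x ≠ v) : (π v).symm x ≠ v := by
  intro h
  apply hx
  have := congrArg (π v) h
  rwa [Equiv.apply_symm_apply, S.hyp.fix] at this

include S in
theorem EH_iff' (v0 v x y : V) (hx : x ≠ v) (hy : y ≠ v) :
    EH θ κ H (tr F v0 (π v0)) x y ↔ EG θ f P F ((π v).symm x) ((π v).symm y) := by
  have := EH_iff S v0 v ((π v).symm x) ((π v).symm y) (symm_ne S v x hx) (symm_ne S v y hy)
  rwa [Equiv.apply_symm_apply, Equiv.apply_symm_apply] at this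

include S in
theorem EH_refl (v0 x : V) : EH θ κ H (tr F v0 (π v0)) x x := by
  obtain ⟨v, h, _, _⟩ := exists_ne3 S x x x
  rw [EH_iff' S v0 v x x h h]
  exact EG_refl _

include S in
theorem EH_symm (v0 : V) {x y : V} (h : EH θ κ H (tr F v0 (π v0)) x y) :
    EH θ κ H (tr F v0 (π v0)) y x := by
  obtain ⟨v, hx, hy, _⟩ := exists_ne3 S x y y
  rw [EH_iff' S v0 v _ _ hx hy] at h
  rw [EH_iff' S v0 v _ _ hy hx]
  exact EG_symm h

include S in
theorem EH_trans (v0 : V) {x y z : V} (h : EH θ κ H (tr F v0 (π v0)) x y)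
    (h' : EH θ κ H (tr F v0 (π v0)) y z) : EH θ κ H (tr F v0 (π v0)) x z := by
  obtain ⟨v, hx, hy, hz⟩ := exists_ne3 S x y z
  rw [EH_iff' S v0 v _ _ hx hy] at h
  rw [EH_iff' S v0 v _ _ hy hz] at h'
  rw [EH_iff' S v0 v _ _ hx hz]
  exact EG_trans S h h'

end setup

end Pool.Agent.Q215.SD
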