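import Pool.Agent.Q215.SD.R1

set_option autoImplicit false
set_option linter.unusedSectionVars false

/-!
# Recognition of a family of components: the ground set and the matrix
-/

namespace Pool.Agent.Q215.SD

open Finset Classical
open Pool.Agent.H234RC (Hypo NonIso)
open Pool.Agent.TH87.RVE (comps comp mem_comp mem_comps comp_self comp_sub comp_eq comp_of_mem
  comps_sub comps_nonempty comp_mem_comps comp_closed rch_mono rch_closed comp_closed_eq
  comps_comp comps_eq_union comps_erase comps_map comp_map rch RR rch_symm rch_trans)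
open Pool.Agent.TH403.FLP (flipG)

variable {V : Type} [Fintype V]

section setup

variable {G H : SimpleGraph V} {π : V → Equiv.Perm V} {r κ θ Θ : ℕ} {f : V → Fin r}
  {P : Fin r → Fin r → Prop} {F : Finset (Finset V)} (S : Setup G H π r κ θ Θ f P F)

/-- `r ^ 2 + r` times the lower threshold -/
def th' (r θ : ℕ) : ℕ := (r * r + r) * θ

include S in
theorem large' : 2 * th' r θ + 2 * θ + 2 * κ + 8 ≤ Θ := by
  have h := S.large
  unfold th'
  have : (r * r + r + 1) * θ = (r * r + r) * θ + θ := by ring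
  omega

/-- the vertices similar to a vertex of a typical member -/
def TN (θ Θ : ℕ) (f : V → Fin r) (P : Fin r → Fin r → Prop) (F : Finset (Finset V)) (y : V) :
    Prop := ∃ C ∈ TY θ Θ f P F, ∃ z ∈ C, EG θ f P F z y

theorem EG_of_eq {x y : V} (h : f x = f y) : EG θ f P F x y := by
  unfold EG
  rw [h, mD_self]
  exact Nat.zero_le _

include S in
theorem TN_of_EG {x y : V} (h : EG θ f P F x y) (hx : TN θ Θ f P F x) : TN θ Θ f P F y := by
  obtain ⟨C, hC, z, hz, hzx⟩ := hx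
  exact ⟨C, hC, z, hz, EG_trans S hzx h⟩

include S in
theorem np_of_TN {y : V} (h : TN θ Θ f P F y) : Θ < np F (EG θ f P F) y := by
  obtain ⟨C, hC, z, hz, hzy⟩ := h
  rw [mem_TY] at hC
  have h1 := hC.2.2 z hz
  refine lt_of_lt_of_le h1 ?_
  unfold mq np
  apply card_le_card
  intro D hD
  rw [mem_filter] at hD ⊢
  obtain ⟨hD, w, hw, hwz⟩ := hD
  exact ⟨hD, w, hw, EG_trans S (EG_of_eq hwz) hzy⟩

include S in
theorem np_of_not {y : V} (h : ¬ TN θ Θ f P F y) : np F (EG θ f P F) y ≤ th' r θ := by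
  refine le_trans ?_ (card_TY S)
  unfold np
  apply card_le_card
  intro D hD
  rw [mem_filter] at hD
  rw [mem_sdiff]
  obtain ⟨hD, w, hw, hwz⟩ := hD
  exact ⟨hD, fun hDT => h ⟨D, hDT, w, hw, hwz⟩⟩

/-- the ground set, in `G` -/
noncomputable def LG (r θ : ℕ) (f : V → Fin r) (P : Fin r → Fin r → Prop)
    (F : Finset (Finset V)) : Finset V :=
  univ.filter (fun y => th' r θ < np F (EG θ f P F) y)

/-- the ground set, in `H` -/
noncomputable def LH (r θ κ : ℕ) (H : SimpleGraph V) (Hf : Finset (Finset V)) : Finset V :=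
  univ.filter (fun y => th' r θ + κ < np Hf (EH θ κ H Hf) y)

include S in
theorem mem_LG (y : V) : y ∈ LG r θ f P F ↔ TN θ Θ f P F y := by
  unfold LG
  rw [mem_filter]
  constructor
  · rintro ⟨_, h⟩
    by_contra h2
    have := np_of_not S h2
    omega
  · intro h
    have h1 := np_of_TN S h
    have h2 := large' S
    exact ⟨mem_univ _, by omega⟩

include S in
theorem np_H (v0 v u : V) (hu : u ≠ v) :
    np (tr F v0 (π v0)) (EH θ κ H (tr F v0 (π v0))) (π v u) ≤ np F (EG θ f P F) u + κ ∧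
    np F (EG θ f P F) u ≤ np (tr F v0 (π v0)) (EH θ κ H (tr F v0 (π v0))) (π v u) + κ + 1 := by
  have hiff : ∀ C ∈ F, v ∉ C → ((∃ z ∈ C.map (π v).toEmbedding,
      EH θ κ H (tr F v0 (π v0)) z (π v u)) ↔ ∃ z ∈ C, EG θ f P F z u) := by
    intro C hC hv
    rw [exists_map']
    constructor
    · rintro ⟨z, hz, h⟩
      exact ⟨z, hz, (EH_iff S v0 v z u (fun e => hv (e ▸ hz)) hu).mp h⟩
    · rintro ⟨z, hz, h⟩
      exact ⟨z, hz, (EH_iff S v0 v z u (fun e => hv (e ▸ hz)) hu).mpr h⟩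
  constructor
  · exact filt_le F (tr F v0 (π v0)) v (π v) κ (S.close v0 v)
      (fun C => ∃ z ∈ C, EH θ κ H (tr F v0 (π v0)) z (π v u))
      (fun C => ∃ z ∈ C, EG θ f P F z u) (fun C hC hv h => (hiff C hC hv).mp h)
  · exact filt_ge F (tr F v0 (π v0)) v (π v) κ (S.close v v0) S.disj
      (fun C => ∃ z ∈ C, EH θ κ H (tr F v0 (π v0)) z (π v u))
      (fun C => ∃ z ∈ C, EG θ f P F z u) (fun C hC hv h => (hiff C hC hv).mpr h)

include S in
theorem mem_LH (v0 v u : V) (hu : u ≠ v) :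
    π v u ∈ LH r θ κ H (tr F v0 (π v0)) ↔ u ∈ LG r θ f P F := by
  obtain ⟨h1, h2⟩ := np_H S v0 v u hu
  rw [mem_LG S]
  unfold LH
  rw [mem_filter]
  have h3 := large' S
  constructor
  · rintro ⟨_, h⟩
    by_contra h4
    have := np_of_not S h4
    omega
  · intro h
    have := np_of_TN S h
    exact ⟨mem_univ _, by omega⟩

theorem sets_eq {π : V → Equiv.Perm V} (hfix : ∀ v, π v v = v) (A B : Finset V)
    (h : ∀ v u, u ≠ v → (π v u ∈ B ↔ u ∈ A)) (hA : A.Nonempty) (h2 : 2 ≤ Fintype.card V) :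
    A = B := by
  have hcard : ∀ v, (A.erase v).card = (B.erase v).card := by
    intro v
    have : (A.erase v).map (π v).toEmbedding = B.erase v := by
      ext y
      obtain ⟨y, rfl⟩ := (π v).surjective y
      rw [mem_map', mem_erase, mem_erase]
      have : π v y ≠ v ↔ y ≠ v := by
        rw [← (π v).injective.ne_iff (x := y), hfix]
      rw [this]
      constructor
      · rintro ⟨h1, h3⟩
        exact ⟨h1, (h v y h1).mpr h3⟩
      · rintro ⟨h1, h3⟩
        exact ⟨h1, (h v y h1).mp h3⟩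
    rw [← this, card_map]
  have hb : ∀ (s : Finset V) (v : V), (s.erase v).card ≤ s.card ∧ s.card ≤ (s.erase v).card + 1 :=
    fun s v => Pool.Agent.TH403.FLP.card_erase_bounds s v
  have hv1 : ∀ (s : Finset V) (v : V), v ∈ s → (s.erase v).card + 1 = s.card := by
    intro s v hv
    rw [card_erase_of_mem hv]
    have := card_pos.mpr ⟨v, hv⟩
    omega
  have hv2 : ∀ (s : Finset V) (v : V), v ∉ s → (s.erase v).card = s.card := by
    intro s v hv
    rw [erase_eq_of_notMem hv]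
  have hAB : ∀ A B : Finset V, (∀ v, (A.erase v).card = (B.erase v).card) → A.Nonempty →
      B.card < A.card → False := by
    intro A B hc hA hlt
    have hall : ∀ v, v ∈ A := by
      intro v
      by_contra hv
      have e1 := hc v
      rw [hv2 A v hv] at e1
      have := (hb B v).1
      omega
    have hBn : ∀ v, v ∉ B := by
      intro v hv
      have e1 := hc v
      have e2 := hv1 A v (hall v)
      have e3 := hv1 B v hv
      omega
    have hAu : A.card = Fintype.card V := by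
      rw [eq_univ_iff_forall.mpr hall, card_univ]
    have hB0 : B.card = 0 := by
      rw [card_eq_zero, eq_empty_iff_forall_notMem]
      exact hBn
    obtain ⟨v, hv⟩ := hA
    have e1 := hc v
    have e2 := hv1 A v hv
    have e3 := hv2 B v (hBn v)
    omega
  have hcAB : A.card = B.card := by
    rcases lt_trichotomy A.card B.card with h3 | h3 | h3
    · exfalso
      by_cases hB : B.Nonempty
      · exact hAB B A (fun v => (hcard v).symm) hB h3
      · rw [not_nonempty_iff_eq_empty] at hB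
        rw [hB, card_empty] at h3
        omega
    · exact h3
    · exact absurd h3 (fun h4 => hAB A B hcard hA h4)
  ext v
  constructor
  · intro hv
    by_contra hv'
    have e1 := hcard v
    have e2 := hv1 A v hv
    have e3 := hv2 B v hv'
    omega
  · intro hv
    by_contra hv'
    have e1 := hcard v
    have e2 := hv1 B v hv
    have e3 := hv2 A v hv'
    omega

include S in
theorem TY_card_ge : κ + th' r θ + 10 ≤ (TY θ Θ f P F).card := by
  unfold th'
  have h1 := card_TY S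
  have h2 := S.big
  have h3 := le_card_sdiff (TY θ Θ f P F) F
  omega

include S in
theorem TY_sub_LG (C : Finset V) (hC : C ∈ TY θ Θ f P F) : C ⊆ LG r θ f P F := by
  intro y hy
  rw [mem_LG S]
  exact ⟨C, hC, y, hy, EG_refl y⟩

include S in
theorem LG_nonempty : (LG r θ f P F).Nonempty := by
  have h1 := TY_card_ge S
  obtain ⟨C, hC⟩ : (TY θ Θ f P F).Nonempty := card_pos.mp (by omega)
  obtain ⟨x, hx⟩ := S.ne C ((mem_TY C).mp hC).1
  exact ⟨x, TY_sub_LG S C hC hx⟩

include S in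
theorem LG_eq_LH (v0 : V) : LG r θ f P F = LH r θ κ H (tr F v0 (π v0)) := by
  have := card_V S
  exact sets_eq S.hyp.fix _ _ (fun v u hu => mem_LH S v0 v u hu) (LG_nonempty S) (by omega)

include S in
theorem pi_LG (v u : V) : π v u ∈ LG r θ f P F ↔ u ∈ LG r θ f P F := by
  by_cases h : u = v
  · subst h
    rw [S.hyp.fix]
  · rw [← mem_LH S v v u h, ← LG_eq_LH S v]

/-! ### the matrix -/

include S in
/-- for typical members the adjacency is determined by the classes -/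
theorem typ_const {x x' y z : V} {C : Finset V} (hC : C ∈ TY θ Θ f P F) (hz : z ∈ C)
    (hx : EG θ f P F x x') : P (f x) (f z) ↔ P (f x') (f z) := by
  rw [mem_TY] at hC
  exact hC.2.1 (f x) (f x') hx z hz

/-- the value of the matrix -/
def BM (θ Θ : ℕ) (f : V → Fin r) (P : Fin r → Fin r → Prop) (F : Finset (Finset V)) (x y : V) :
    Prop :=
  ∃ C₁ ∈ TY θ Θ f P F, ∃ z₁ ∈ C₁, EG θ f P F z₁ x ∧ ∃ C₂ ∈ TY θ Θ f P F, ∃ z₂ ∈ C₂,
    EG θ f P F z₂ y ∧ P (f z₁) (f z₂)

include S in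
theorem P_comm (i j : Fin r) : P i j ↔ P j i := ⟨S.symm i j, S.symm j i⟩

include S in
/-- the value does not depend on the choices -/
theorem BM_iff {x y x' z : V} {C : Finset V} (hx : TN θ Θ f P F x)
    (hx' : EG θ f P F x x') (hC : C ∈ TY θ Θ f P F) (hz : z ∈ C) (hy : EG θ f P F z y) :
    BM θ Θ f P F x y ↔ P (f x') (f z) := by
  constructor
  · rintro ⟨C₁, h₁, z₁, hz₁, e₁, C₂, h₂, z₂, hz₂, e₂, hP⟩
    rw [← typ_const S (y := x) hC hz (EG_trans S e₁ hx'), P_comm S,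
      typ_const S (y := x) h₁ hz₁ (EG_trans S hy (EG_symm e₂)), P_comm S]
    exact hP
  · intro hP
    obtain ⟨C₁, h₁, z₁, hz₁, e₁⟩ := hx
    refine ⟨C₁, h₁, z₁, hz₁, e₁, C, hC, z, hz, hy, ?_⟩
    rwa [typ_const S (y := x) hC hz (EG_trans S e₁ hx')]

include S in
theorem BM_symm {x y : V} : BM θ Θ f P F x y ↔ BM θ Θ f P F y x := by
  constructor
  · rintro ⟨C₁, h₁, z₁, hz₁, e₁, C₂, h₂, z₂, hz₂, e₂, hP⟩
    exact ⟨C₂, h₂, z₂, hz₂, e₂, C₁, h₁, z₁, hz₁, e₁, S.symm _ _ hP⟩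
  · rintro ⟨C₁, h₁, z₁, hz₁, e₁, C₂, h₂, z₂, hz₂, e₂, hP⟩
    exact ⟨C₂, h₂, z₂, hz₂, e₂, C₁, h₁, z₁, hz₁, e₁, S.symm _ _ hP⟩

include S in
theorem BM_congr {x y x' y' : V} (hx : EG θ f P F x x') (hy : EG θ f P F y y') :
    BM θ Θ f P F x y ↔ BM θ Θ f P F x' y' := by
  constructor
  · rintro ⟨C₁, h₁, z₁, hz₁, e₁, C₂, h₂, z₂, hz₂, e₂, hP⟩
    exact ⟨C₁, h₁, z₁, hz₁, EG_trans S e₁ hx, C₂, h₂, z₂, hz₂, EG_trans S e₂ hy, hP⟩
  · rintro ⟨C₁, h₁, z₁, hz₁, e₁, C₂, h₂, z₂, hz₂, e₂, hP⟩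
    exact ⟨C₁, h₁, z₁, hz₁, EG_trans S e₁ (EG_symm hx), C₂, h₂, z₂, hz₂,
      EG_trans S e₂ (EG_symm hy), hP⟩

include S in
/-- adjacency to a typical member -/
theorem adj_typ {x y : V} {C : Finset V} (hx : TN θ Θ f P F x) (hC : C ∈ TY θ Θ f P F)
    (hxC : x ∉ C) (hy : y ∈ C) : G.Adj x y ↔ BM θ Θ f P F x y := by
  rw [S.adj C ((mem_TY C).mp hC).1 x hxC y hy]
  exact (BM_iff S hx (EG_refl x) hC hy (EG_refl y)).symm

include S in
theorem mm_of_BM {x y : V} (hx : TN θ Θ f P F x) (hy : TN θ Θ f P F y)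
    (h : BM θ Θ f P F x y) : Θ ≤ mm G F (EG θ f P F) x y + th' r θ := by
  have h1 := np_of_TN S hy
  have h2 := card_TY S
  have h3 := card_mem_le S x
  unfold np at h1
  unfold mm
  have hsub : F.filter (fun C => ∃ z ∈ C, EG θ f P F z y) ⊆
      F.filter (fun C => x ∉ C ∧ (∃ z ∈ C, EG θ f P F z y) ∧
        ∀ z ∈ C, EG θ f P F z y → G.Adj x z) ∪
      (F \ TY θ Θ f P F ∪ F.filter (fun C => x ∈ C)) := by
    intro C hC
    rw [mem_filter] at hC
    rw [mem_union, mem_union, mem_filter, mem_sdiff, mem_filter]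
    by_cases g1 : C ∈ TY θ Θ f P F
    · by_cases g2 : x ∈ C
      · exact Or.inr (Or.inr ⟨hC.1, g2⟩)
      · left
        refine ⟨hC.1, g2, hC.2, fun z hz hzy => ?_⟩
        rw [adj_typ S hx g1 g2 hz, BM_congr S (EG_refl x) hzy]
        exact h
    · exact Or.inr (Or.inl ⟨hC.1, g1⟩)
  have h4 := card_le_card hsub
  have h5 := card_union_le (F.filter (fun C => x ∉ C ∧ (∃ z ∈ C, EG θ f P F z y) ∧
        ∀ z ∈ C, EG θ f P F z y → G.Adj x z)) (F \ TY θ Θ f P F ∪ F.filter (fun C => x ∈ C))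
  have h6 := card_union_le (F \ TY θ Θ f P F) (F.filter (fun C => x ∈ C))
  unfold th'
  omega

include S in
theorem mm_of_not {x y : V} (hx : TN θ Θ f P F x) (h : ¬ BM θ Θ f P F x y) :
    mm G F (EG θ f P F) x y ≤ th' r θ := by
  refine le_trans ?_ (card_TY S)
  unfold mm
  apply card_le_card
  intro D hD
  rw [mem_filter] at hD
  rw [mem_sdiff]
  obtain ⟨hD, hxD, ⟨z, hz, hzy⟩, hall⟩ := hD
  refine ⟨hD, fun hDT => h ?_⟩
  rw [← BM_congr S (EG_refl x) hzy, ← adj_typ S hx hDT hxD hz]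
  exact hall z hz hzy

/-- the matrix in `H` -/
def MH (r θ κ : ℕ) (H : SimpleGraph V) (Hf : Finset (Finset V)) (x y : V) : Prop :=
  th' r θ + κ < mm H Hf (EH θ κ H Hf) x y

include S in
theorem mm_H (v0 v u u' : V) (hu : u ≠ v) (hu' : u' ≠ v) :
    mm H (tr F v0 (π v0)) (EH θ κ H (tr F v0 (π v0))) (π v u) (π v u') ≤
      mm G F (EG θ f P F) u u' + κ ∧
    mm G F (EG θ f P F) u u' ≤
      mm H (tr F v0 (π v0)) (EH θ κ H (tr F v0 (π v0))) (π v u) (π v u') + κ + 1 := by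
  set Hf := tr F v0 (π v0) with hHf
  have hE : ∀ C : Finset V, v ∉ C → ∀ z ∈ C, (EH θ κ H Hf (π v z) (π v u') ↔ EG θ f P F z u') :=
    fun C hv z hz => EH_iff S v0 v z u' (fun e => hv (e ▸ hz)) hu'
  have hiff : ∀ C ∈ F, v ∉ C → ((π v u ∉ C.map (π v).toEmbedding ∧
      (∃ z ∈ C.map (π v).toEmbedding, EH θ κ H Hf z (π v u')) ∧
      ∀ z ∈ C.map (π v).toEmbedding, EH θ κ H Hf z (π v u') → H.Adj (π v u) z) ↔
      (u ∉ C ∧ (∃ z ∈ C, EG θ f P F z u') ∧ ∀ z ∈ C, EG θ f P F z u' → G.Adj u z)) := by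
    intro C hC hv
    rw [mem_map', exists_map', forall_map']
    constructor
    · rintro ⟨h1, ⟨z, hz, h2⟩, h3⟩
      refine ⟨h1, ⟨z, hz, (hE C hv z hz).mp h2⟩, fun w hw hwu => ?_⟩
      have := h3 w hw ((hE C hv w hw).mpr hwu)
      rwa [adj_map S v C hv u hu w hw] at this
    · rintro ⟨h1, ⟨z, hz, h2⟩, h3⟩
      refine ⟨h1, ⟨z, hz, (hE C hv z hz).mpr h2⟩, fun w hw hwu => ?_⟩
      rw [adj_map S v C hv u hu w hw]
      exact h3 w hw ((hE C hv w hw).mp hwu)
  constructor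
  · exact filt_le F Hf v (π v) κ (S.close v0 v)
      (fun C => π v u ∉ C ∧ (∃ z ∈ C, EH θ κ H Hf z (π v u')) ∧
        ∀ z ∈ C, EH θ κ H Hf z (π v u') → H.Adj (π v u) z)
      (fun C => u ∉ C ∧ (∃ z ∈ C, EG θ f P F z u') ∧ ∀ z ∈ C, EG θ f P F z u' → G.Adj u z)
      (fun C hC hv h => (hiff C hC hv).mp h)
  · exact filt_ge F Hf v (π v) κ (S.close v v0) S.disj
      (fun C => π v u ∉ C ∧ (∃ z ∈ C, EH θ κ H Hf z (π v u')) ∧
        ∀ z ∈ C, EH θ κ H Hf z (π v u') → H.Adj (π v u) z)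
      (fun C => u ∉ C ∧ (∃ z ∈ C, EG θ f P F z u') ∧ ∀ z ∈ C, EG θ f P F z u' → G.Adj u z)
      (fun C hC hv h => (hiff C hC hv).mpr h)

include S in
theorem MH_iff (v0 v u u' : V) (hu : u ≠ v) (hu' : u' ≠ v) (h : u ∈ LG r θ f P F)
    (h' : u' ∈ LG r θ f P F) :
    MH r θ κ H (tr F v0 (π v0)) (π v u) (π v u') ↔ BM θ Θ f P F u u' := by
  obtain ⟨h1, h2⟩ := mm_H S v0 v u u' hu hu'
  rw [mem_LG S] at h h'
  have h3 := large' S
  unfold MH
  constructor
  · intro h4
    by_contra h5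
    have := mm_of_not S h h5
    omega
  · intro h4
    have := mm_of_BM S h h' h4
    omega

end setup

end Pool.Agent.Q215.SD
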