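import Pool.Agent.Q215.SD.R2

set_option autoImplicit false
set_option linter.unusedSectionVars false

/-!
# Recognition of a family of components: the flipped graphs
-/

namespace Pool.Agent.Q215.SD

open Finset Classical
open Pool.Agent.H234RC (Hypo NonIso)
open Pool.Agent.TH87.RVE (comps comp mem_comp mem_comps comp_self comp_sub comp_eq comp_of_mem
  comps_sub comps_nonempty comp_mem_comps comp_closed rch_mono rch_closed comp_closed_eq
  comps_comp comps_eq_union comps_erase comps_map comp_map rch RR rch_symm rch_trans)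
open Pool.Agent.TH403.FLP (flipG)

variable {V : Type} [Fintype V]

section setup

variable {G H : SimpleGraph V} {π : V → Equiv.Perm V} {r κ θ Θ : ℕ} {f : V → Fin r}
  {P : Fin r → Fin r → Prop} {F : Finset (Finset V)} (S : Setup G H π r κ θ Θ f P F)

/-- the flipped graph of `G` on the ground set -/
def Gh (S : Setup G H π r κ θ Θ f P F) : SimpleGraph V where
  Adj x y := x ≠ y ∧ x ∈ LG r θ f P F ∧ y ∈ LG r θ f P F ∧ ¬ (G.Adj x y ↔ BM θ Θ f P F x y)
  symm := ⟨fun x y h => ⟨h.1.symm, h.2.2.1, h.2.1, fun h' => h.2.2.2 (by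
    rw [G.adj_comm, h']
    exact BM_symm S)⟩⟩
  loopless := ⟨fun _ h => h.1 rfl⟩

include S in
theorem MH_symm (v0 x y : V) (hx : x ∈ LG r θ f P F) (hy : y ∈ LG r θ f P F) :
    MH r θ κ H (tr F v0 (π v0)) x y ↔ MH r θ κ H (tr F v0 (π v0)) y x := by
  obtain ⟨v, h1, h2, _⟩ := exists_ne3 S x y y
  obtain ⟨x, rfl⟩ := (π v).surjective x
  obtain ⟨y, rfl⟩ := (π v).surjective y
  rw [pi_LG S] at hx hy
  rw [pi_ne' S] at h1 h2
  rw [MH_iff S v0 v x y h1 h2 hx hy, MH_iff S v0 v y x h2 h1 hy hx, BM_symm S]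

/-- the flipped graph of `H` on the ground set -/
def Hh (S : Setup G H π r κ θ Θ f P F) (v0 : V) : SimpleGraph V where
  Adj x y := x ≠ y ∧ x ∈ LG r θ f P F ∧ y ∈ LG r θ f P F ∧
    ¬ (H.Adj x y ↔ MH r θ κ H (tr F v0 (π v0)) x y)
  symm := ⟨fun x y h => ⟨h.1.symm, h.2.2.1, h.2.1, fun h' => h.2.2.2 (by
    rw [H.adj_comm, h']
    exact MH_symm S v0 y x h.2.2.1 h.2.1)⟩⟩
  loopless := ⟨fun _ h => h.1 rfl⟩

theorem hat_map (v0 v x y : V) (hx : x ≠ v) (hy : y ≠ v) :
    (Hh S v0).Adj (π v x) (π v y) ↔ (Gh S).Adj x y := by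
  show (_ ∧ _ ∧ _ ∧ _) ↔ (_ ∧ _ ∧ _ ∧ _)
  rw [pi_LG S, pi_LG S, (π v).injective.ne_iff, S.hyp.adj v x y hx hy]
  constructor
  · rintro ⟨h1, h2, h3, h4⟩
    rw [MH_iff S v0 v x y hx hy h2 h3] at h4
    exact ⟨h1, h2, h3, h4⟩
  · rintro ⟨h1, h2, h3, h4⟩
    rw [MH_iff S v0 v x y hx hy h2 h3]
    exact ⟨h1, h2, h3, h4⟩

/-- uniform to the classes outside the ground set, in `G` -/
def nvG (G : SimpleGraph V) (r θ : ℕ) (f : V → Fin r) (P : Fin r → Fin r → Prop)
    (F : Finset (Finset V)) (y : V) : Prop :=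
  ∀ x x', x ∉ LG r θ f P F → x' ∉ LG r θ f P F → EG θ f P F x x' → (G.Adj y x ↔ G.Adj y x')

/-- uniform to the classes outside the ground set, in `H` -/
def nvH (H : SimpleGraph V) (r θ κ : ℕ) (f : V → Fin r) (P : Fin r → Fin r → Prop)
    (F Hf : Finset (Finset V)) (y : V) : Prop :=
  ∀ x x', x ∉ LG r θ f P F → x' ∉ LG r θ f P F → EH θ κ H Hf x x' → (H.Adj y x ↔ H.Adj y x')

include S in
theorem nv_iff (v0 v y : V) (hv : v ∈ LG r θ f P F) (hy : y ≠ v) :
    nvH H r θ κ f P F (tr F v0 (π v0)) (π v y) ↔ nvG G r θ f P F y := by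
  constructor
  · intro h x x' hx hx' hE
    have hxv : x ≠ v := fun e => hx (e ▸ hv)
    have hxv' : x' ≠ v := fun e => hx' (e ▸ hv)
    have := h (π v x) (π v x') (fun h' => hx ((pi_LG S v x).mp h'))
      (fun h' => hx' ((pi_LG S v x').mp h')) ((EH_iff S v0 v x x' hxv hxv').mpr hE)
    rwa [S.hyp.adj v y x hy hxv, S.hyp.adj v y x' hy hxv'] at this
  · intro h x x' hx hx' hE
    obtain ⟨x, rfl⟩ := (π v).surjective x
    obtain ⟨x', rfl⟩ := (π v).surjective x'
    rw [pi_LG S] at hx hx'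
    have hxv : x ≠ v := fun e => hx (e ▸ hv)
    have hxv' : x' ≠ v := fun e => hx' (e ▸ hv)
    rw [EH_iff S v0 v x x' hxv hxv'] at hE
    rw [S.hyp.adj v y x hy hxv, S.hyp.adj v y x' hy hxv']
    exact h x x' hx hx' hE

/-- a typical member is a component of the flipped graph -/
theorem TY_comps (hF : F ⊆ comps (flipG G f P S.symm) univ) (C : Finset V)
    (hC : C ∈ TY θ Θ f P F) : C ∈ comps (Gh S) (LG r θ f P F) := by
  have hCF := ((mem_TY C).mp hC).1
  have hCL := TY_sub_LG S C hC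
  apply comps_of_closed (Gh S) hCL
  · intro x hx y hy hadj
    by_contra hyC
    have h1 : G.Adj y x ↔ BM θ Θ f P F y x := adj_typ S ((mem_LG S y).mp hy) hC hyC hx
    exact hadj.2.2.2 (by rw [G.adj_comm, h1]; exact BM_symm S)
  · rw [← comps_comp (flipG G f P S.symm) univ C (hF hCF)]
    apply comps_congr'
    intro x hx y hy
    show (x ≠ y ∧ _ ∧ _ ∧ ¬ (G.Adj x y ↔ _)) ↔ (x ≠ y ∧ ¬ (G.Adj x y ↔ P (f x) (f y)))
    have h1 : BM θ Θ f P F x y ↔ P (f x) (f y) :=
      BM_iff S ((mem_LG S x).mp (hCL hx)) (EG_refl x) hC hy (EG_refl y)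
    rw [h1]
    constructor
    · rintro ⟨a, _, _, b⟩
      exact ⟨a, b⟩
    · rintro ⟨a, b⟩
      exact ⟨a, hCL hx, hCL hy, b⟩

include S in
theorem TY_nv (C : Finset V) (hC : C ∈ TY θ Θ f P F) (y : V) (hy : y ∈ C) :
    nvG G r θ f P F y := by
  intro x x' hx hx' hE
  have hCF := ((mem_TY C).mp hC).1
  have hCL := TY_sub_LG S C hC
  rw [G.adj_comm y x, G.adj_comm y x', S.adj C hCF x (fun h => hx (hCL h)) y hy,
    S.adj C hCF x' (fun h => hx' (hCL h)) y hy]
  exact typ_const S (y := y) hC hy hE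

/-- a nice component of the flipped graph of `H` -/
theorem exists_nice_H (hF : F ⊆ comps (flipG G f P S.symm) univ) (v0 : V) :
    ∃ D ∈ comps (Hh S v0) (LG r θ f P F), ∀ y ∈ D, nvH H r θ κ f P F (tr F v0 (π v0)) y := by
  -- two different vertices of the ground set
  have hTc := TY_card_ge S
  have h2 : 1 < (TY θ Θ f P F).card := by omega
  obtain ⟨C₁, hC₁, C₂, hC₂, hne⟩ := one_lt_card.mp h2
  obtain ⟨v, hv⟩ := S.ne C₁ ((mem_TY C₁).mp hC₁).1
  obtain ⟨w, hw⟩ := S.ne C₂ ((mem_TY C₂).mp hC₂).1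
  have hvw : v ≠ w := fun e => hne (S.disj C₁ ((mem_TY C₁).mp hC₁).1 C₂ ((mem_TY C₂).mp hC₂).1
    v hv (e ▸ hw))
  have hvL := TY_sub_LG S C₁ hC₁ hv
  have hwL := TY_sub_LG S C₂ hC₂ hw
  -- a common typical member
  have hex : ∃ C ∈ TY θ Θ f P F, v ∉ C ∧ ∃ D ∈ TY θ Θ f P F, w ∉ D ∧
      D.map (π w).toEmbedding = C.map (π v).toEmbedding := by
    by_contra hcon
    push Not at hcon
    have hsub : ((TY θ Θ f P F).filter (fun C => v ∉ C)).image (fun C => C.map (π v).toEmbedding) ⊆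
        (tr F v (π v) \ tr F w (π w)) ∪
          (F \ TY θ Θ f P F).image (fun C => C.map (π w).toEmbedding) := by
      intro E hE
      rw [mem_image] at hE
      obtain ⟨C, hC, rfl⟩ := hE
      rw [mem_filter] at hC
      rw [mem_union, mem_sdiff, mem_image]
      by_cases h : C.map (π v).toEmbedding ∈ tr F w (π w)
      · right
        rw [mem_tr] at h
        obtain ⟨D, hD, hwD, hDC⟩ := h
        exact ⟨D, mem_sdiff.mpr ⟨hD, fun hDT => hcon C hC.1 hC.2 D hDT hwD hDC⟩, hDC⟩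
      · left
        exact ⟨(mem_tr _ _ _ _).mpr ⟨C, ((mem_TY C).mp hC.1).1, hC.2, rfl⟩, h⟩
    have h3 := card_le_card hsub
    rw [card_image_of_injective _ (Finset.map_injective (π v).toEmbedding)] at h3
    have h4 := card_union_le (tr F v (π v) \ tr F w (π w))
      ((F \ TY θ Θ f P F).image (fun C => C.map (π w).toEmbedding))
    have h5 : ((F \ TY θ Θ f P F).image (fun C => C.map (π w).toEmbedding)).card ≤ _ :=
      card_image_le
    have h6 := card_TY S
    have h7 := S.close v w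
    have h8 : (TY θ Θ f P F).card ≤ ((TY θ Θ f P F).filter (fun C => v ∉ C)).card +
        (F.filter (fun C => v ∈ C)).card := by
      have : TY θ Θ f P F ⊆ (TY θ Θ f P F).filter (fun C => v ∉ C) ∪
          F.filter (fun C => v ∈ C) := by
        intro C hC
        rw [mem_union, mem_filter, mem_filter]
        by_cases h : v ∈ C
        · exact Or.inr ⟨((mem_TY C).mp hC).1, h⟩
        · exact Or.inl ⟨hC, h⟩
      exact (card_le_card this).trans (card_union_le _ _)
    have h9 := card_mem_le S v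
    unfold th' at hTc
    omega
  obtain ⟨C, hC, hvC, D, hD, hwD, hDC⟩ := hex
  have hCc := TY_comps S hF C hC
  have hDc := TY_comps S hF D hD
  refine ⟨C.map (π v).toEmbedding, ?_, ?_⟩
  · apply comps_of_closed
    · intro x hx
      obtain ⟨x, rfl⟩ := (π v).surjective x
      rw [mem_map'] at hx
      rw [pi_LG S]
      exact TY_sub_LG S C hC hx
    · intro x hx y hy hadj
      by_contra hyC
      by_cases hyv : y = v
      · subst hyv
        rw [← hDC] at hx hyC
        obtain ⟨x, rfl⟩ := (π w).surjective x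
        obtain ⟨u, hu⟩ := (π w).surjective y
        rw [← hu, mem_map'] at hyC
        rw [mem_map'] at hx
        have hxw : x ≠ w := fun e => hwD (e ▸ hx)
        have huw : u ≠ w := by
          rw [← pi_ne' S w u, hu]
          exact hvw
        rw [← hu, hat_map S v0 w x u hxw huw] at hadj
        exact hyC (comp_closed (Gh S) _ D hDc x u hx hadj.2.2.1 hadj)
      · obtain ⟨x, rfl⟩ := (π v).surjective x
        obtain ⟨y, rfl⟩ := (π v).surjective y
        rw [mem_map'] at hyC hx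
        have hxv : x ≠ v := fun e => hvC (e ▸ hx)
        have hyv' : y ≠ v := (pi_ne' S v y).mp hyv
        rw [hat_map S v0 v x y hxv hyv'] at hadj
        exact hyC (comp_closed (Gh S) _ C hCc x y hx hadj.2.2.1 hadj)
    · have h1 := comps_map (Gh S) (Hh S v0) C (C.map (π v).toEmbedding) (π v)
        (fun x => mem_map' (π v) C x)
        (fun x y hx hy => hat_map S v0 v x y (fun e => hvC (e ▸ hx)) (fun e => hvC (e ▸ hy)))
      rw [h1, comps_comp (Gh S) _ C hCc, image_singleton]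
  · intro y hy
    obtain ⟨y, rfl⟩ := (π v).surjective y
    rw [mem_map'] at hy
    rw [nv_iff S v0 v y hvL (fun e => hvC (e ▸ hy))]
    exact TY_nv S C hC y hy

/-- the final ground set -/
noncomputable def Ln (S : Setup G H π r κ θ Θ f P F) : Finset V :=
  ((comps (Gh S) (LG r θ f P F)).filter (fun D => ∀ y ∈ D, nvG G r θ f P F y)).biUnion id

theorem Ln_maps (hn : S_nice) (hF : F ⊆ comps (flipG G f P S.symm) univ) :
    ∀ v ∈ Ln S, ∀ u, π v u ∈ Ln S ↔ u ∈ Ln S := by
  have hTc := TY_card_ge S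
  obtain ⟨C, hC⟩ : (TY θ Θ f P F).Nonempty := card_pos.mp (by omega)
  obtain ⟨v0, _⟩ := S.ne C ((mem_TY C).mp hC).1
  exact (hn V (Gh S) (Hh S v0) (LG r θ f P F) (nvG G r θ f P F)
    (nvH H r θ κ f P F (tr F v0 (π v0))) π S.hyp.fix (fun v _ u => pi_LG S v u)
    (fun v _ x _ y _ hx hy => hat_map S v0 v x y hx hy)
    (fun v hv x _ hx => nv_iff S v0 v x hv hx)
    ⟨C, TY_comps S hF C hC, TY_nv S C hC⟩ (exists_nice_H S hF v0)).2

theorem comps_Ln : comps (Gh S) (Ln S) =
    (comps (Gh S) (LG r θ f P F)).filter (fun D => ∀ y ∈ D, nvG G r θ f P F y) :=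
  comps_biUnion (Gh S) (LG r θ f P F) _ (filter_subset _ _)

theorem Ln_sub : Ln S ⊆ LG r θ f P F := by
  intro x hx
  unfold Ln at hx
  rw [mem_biUnion] at hx
  obtain ⟨D, hD, hx⟩ := hx
  exact comps_sub _ _ D (mem_filter.mp hD).1 hx

theorem Ln_nv (x : V) (hx : x ∈ Ln S) : nvG G r θ f P F x := by
  unfold Ln at hx
  rw [mem_biUnion] at hx
  obtain ⟨D, hD, hx⟩ := hx
  exact (mem_filter.mp hD).2 x hx

theorem Ln_closed (x y : V) (hx : x ∈ Ln S) (hy : y ∈ LG r θ f P F) (hyn : y ∉ Ln S) :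
    G.Adj x y ↔ BM θ Θ f P F x y := by
  by_contra hcon
  have hxL := Ln_sub S hx
  have hxy : x ≠ y := fun e => hyn (e ▸ hx)
  have hadj : (Gh S).Adj x y := ⟨hxy, hxL, hy, hcon⟩
  apply hyn
  unfold Ln at hx ⊢
  rw [mem_biUnion] at hx ⊢
  obtain ⟨D, hD, hx⟩ := hx
  exact ⟨D, hD, comp_closed _ _ D (mem_filter.mp hD).1 x y hx hy hadj⟩

theorem TY_Ln (hF : F ⊆ comps (flipG G f P S.symm) univ) :
    TY θ Θ f P F ⊆ comps (Gh S) (Ln S) := by
  intro C hC
  rw [comps_Ln, mem_filter]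
  exact ⟨TY_comps S hF C hC, TY_nv S C hC⟩

include S in
/-- the classes in the ground set are large -/
theorem many3 (y a b c : V) (hy : y ∈ LG r θ f P F) :
    ∃ z, z ≠ a ∧ z ≠ b ∧ z ≠ c ∧ EG θ f P F z y := by
  have h1 := np_of_TN S ((mem_LG S y).mp hy)
  have h2 := large' S
  by_contra hcon
  push Not at hcon
  have hsub : F.filter (fun C => ∃ z ∈ C, EG θ f P F z y) ⊆
      F.filter (fun C => a ∈ C) ∪ (F.filter (fun C => b ∈ C) ∪ F.filter (fun C => c ∈ C)) := by
    intro C hC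
    rw [mem_filter] at hC
    obtain ⟨hC, z, hz, hzy⟩ := hC
    rw [mem_union, mem_union, mem_filter, mem_filter, mem_filter]
    by_cases ha : z = a
    · exact Or.inl ⟨hC, ha ▸ hz⟩
    by_cases hb : z = b
    · exact Or.inr (Or.inl ⟨hC, hb ▸ hz⟩)
    by_cases hc : z = c
    · exact Or.inr (Or.inr ⟨hC, hc ▸ hz⟩)
    exact absurd hzy (hcon z ha hb hc)
  have h3 := card_le_card hsub
  have h4 := card_union_le (F.filter (fun C => a ∈ C))
    (F.filter (fun C => b ∈ C) ∪ F.filter (fun C => c ∈ C))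
  have h5 := card_union_le (F.filter (fun C => b ∈ C)) (F.filter (fun C => c ∈ C))
  have h6 := card_mem_le S a
  have h7 := card_mem_le S b
  have h8 := card_mem_le S c
  unfold np at h1
  omega

end setup

end Pool.Agent.Q215.SD
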