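import Pool.Agent.Q215.SD.R3

set_option autoImplicit false
set_option linter.unusedSectionVars false

/-!
# Recognition of a family of components: the colours
-/

namespace Pool.Agent.Q215.SD

open Finset Classical
open Pool.Agent.H234RC (Hypo NonIso)
open Pool.Agent.TH87.RVE (comps comp mem_comp mem_comps comp_self comp_sub comp_eq comp_of_mem
  comps_sub comps_nonempty comp_mem_comps comp_closed rch_mono rch_closed comp_closed_eq
  comps_comp comps_eq_union comps_erase comps_map comp_map rch RR rch_symm rch_trans)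
open Pool.Agent.TH403.FLP (flipG exists_equiv)

variable {V : Type} [Fintype V]

section setup

variable {G H : SimpleGraph V} {π : V → Equiv.Perm V} {r κ θ Θ : ℕ} {f : V → Fin r}
  {P : Fin r → Fin r → Prop} {F : Finset (Finset V)} (S : Setup G H π r κ θ Θ f P F)

include S in
theorem LG_class {x y : V} (h : EG θ f P F x y) : x ∈ LG r θ f P F ↔ y ∈ LG r θ f P F := by
  rw [mem_LG S, mem_LG S]
  exact ⟨fun hx => TN_of_EG S h hx, fun hy => TN_of_EG S (EG_symm h) hy⟩

/-- the classes of `G` -/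
def sG (S : Setup G H π r κ θ Θ f P F) : Setoid V where
  r := EG θ f P F
  iseqv := ⟨fun x => EG_refl x, fun h => EG_symm h, fun h h' => EG_trans S h h'⟩

/-- the classes of `H` -/
def sH (S : Setup G H π r κ θ Θ f P F) (v0 : V) : Setoid V where
  r := EH θ κ H (tr F v0 (π v0))
  iseqv := ⟨fun x => EH_refl S v0 x, fun h => EH_symm S v0 h, fun h h' => EH_trans S v0 h h'⟩

/-- the type of the classes of `G` -/
def XG (S : Setup G H π r κ θ Θ f P F) : Type := Quotient (sG S)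

/-- the type of the classes of `H` -/
def XH (S : Setup G H π r κ θ Θ f P F) (v0 : V) : Type := Quotient (sH S v0)

/-- the class of a vertex -/
def clG (S : Setup G H π r κ θ Θ f P F) (x : V) : XG S := Quotient.mk (sG S) x

/-- the class of a vertex -/
def clH (S : Setup G H π r κ θ Θ f P F) (v0 : V) (x : V) : XH S v0 := Quotient.mk (sH S v0) x

theorem clG_eq (x y : V) : clG S x = clG S y ↔ EG θ f P F x y :=
  ⟨fun h => Quotient.exact h, fun h => Quotient.sound (s := sG S) h⟩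

theorem clH_eq (v0 x y : V) : clH S v0 x = clH S v0 y ↔ EH θ κ H (tr F v0 (π v0)) x y :=
  ⟨fun h => Quotient.exact h, fun h => Quotient.sound (s := sH S v0) h⟩

theorem clG_surj (i : XG S) : ∃ x, clG S x = i := Quotient.exists_rep i

theorem clH_surj (v0 : V) (i : XH S v0) : ∃ x, clH S v0 x = i := Quotient.exists_rep i

noncomputable instance : Fintype (XG S) :=
  @Fintype.ofFinite _ (inferInstanceAs (Finite (Quotient (sG S))))

theorem card_XG : Fintype.card (XG S) ≤ r := by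
  choose g hg using clG_surj S
  have hinj : Function.Injective (fun i => f (g i)) := by
    intro i j hij
    rw [← hg i, ← hg j, clG_eq]
    exact EG_of_eq hij
  have := Fintype.card_le_of_injective _ hinj
  rwa [Fintype.card_fin] at this

theorem exists_e (v0 v : V) (hv : v ∈ LG r θ f P F) :
    ∃ e : XG S ≃ XH S v0, ∀ u, u ≠ v → e (clG S u) = clH S v0 (π v u) := by
  have h := exists_equiv (X := {u : V // u ≠ v}) (fun u => clG S u.1)
    (fun u => clH S v0 (π v u.1)) ?_ ?_ ?_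
  · obtain ⟨e, he⟩ := h
    exact ⟨e, fun u hu => he ⟨u, hu⟩⟩
  · intro i
    obtain ⟨x, rfl⟩ := clG_surj S i
    by_cases hx : x = v
    · obtain ⟨z, hz, _, _, hzx⟩ := many3 S x v v v (hx ▸ hv)
      exact ⟨⟨z, hz⟩, (clG_eq S z x).mpr hzx⟩
    · exact ⟨⟨x, hx⟩, rfl⟩
  · intro i
    obtain ⟨x, rfl⟩ := clH_surj S v0 i
    by_cases hx : x = v
    · -- use another card
      obtain ⟨w, hw, _, _⟩ := exists_ne3 S v v v
      obtain ⟨u, hu⟩ := (π w).surjective v
      have huw : u ≠ w := by rw [← pi_ne' S w u, hu]; exact hw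
      have huL : u ∈ LG r θ f P F := by rw [← pi_LG S w u, hu]; exact hv
      obtain ⟨z, hz1, hz2, _, hzu⟩ := many3 S u u w w huL
      have h1 := (EH_iff S v0 w z u hz2 huw).mpr hzu
      rw [hu] at h1
      have hzv : π w z ≠ v := by
        rw [← hu, (π w).injective.ne_iff]
        exact hz1
      obtain ⟨y, hy⟩ := (π v).surjective (π w z)
      have hyv : y ≠ v := by rw [← pi_ne' S v y, hy]; exact hzv
      refine ⟨⟨y, hyv⟩, ?_⟩
      show clH S v0 (π v y) = clH S v0 x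
      rw [hy, hx, clH_eq]
      exact h1
    · obtain ⟨u, rfl⟩ := (π v).surjective x
      exact ⟨⟨u, (pi_ne' S v u).mp hx⟩, rfl⟩
  · intro x y
    rw [clG_eq, clH_eq]
    exact (EH_iff S v0 v x y x.2 y.2).symm

/-- the bijection of the classes -/
noncomputable def eV (S : Setup G H π r κ θ Θ f P F) (v0 : V) (hv0 : v0 ∈ LG r θ f P F) (v : V) :
    XG S ≃ XH S v0 :=
  if h : v ∈ LG r θ f P F then (exists_e S v0 v h).choose else (exists_e S v0 v0 hv0).choose

theorem eV_spec (v0 : V) (hv0 : v0 ∈ LG r θ f P F) (v : V) (hv : v ∈ LG r θ f P F) (u : V)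
    (hu : u ≠ v) : eV S v0 hv0 v (clG S u) = clH S v0 (π v u) := by
  unfold eV
  rw [dif_pos hv]
  exact (exists_e S v0 v hv).choose_spec u hu

/-- the permutation of the classes -/
noncomputable def tV (S : Setup G H π r κ θ Θ f P F) (v0 : V) (hv0 : v0 ∈ LG r θ f P F) (v : V) :
    Equiv.Perm (XG S) := (eV S v0 hv0 v).trans (eV S v0 hv0 v0).symm

/-- the classes of `H`, with the names of the classes of `G` -/
noncomputable def cl1 (S : Setup G H π r κ θ Θ f P F) (v0 : V) (hv0 : v0 ∈ LG r θ f P F) (x : V) :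
    XG S := (eV S v0 hv0 v0).symm (clH S v0 x)

theorem tV_cl (v0 : V) (hv0 : v0 ∈ LG r θ f P F) (v : V) (hv : v ∈ LG r θ f P F) (u : V)
    (hu : u ≠ v) : cl1 S v0 hv0 (π v u) = tV S v0 hv0 v (clG S u) := by
  unfold cl1 tV
  rw [Equiv.trans_apply, eV_spec S v0 hv0 v hv u hu]

/-- good representatives -/
theorem exists_rep2 (v0 : V) (hv0 : v0 ∈ LG r θ f P F) (v : V) (hv : v ∈ LG r θ f P F)
    (i : XG S) : ∃ u w, u ≠ v ∧ w ≠ v0 ∧ clG S u = i ∧ clG S w = tV S v0 hv0 v i ∧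
      π v0 w = π v u ∧ (u ∈ LG r θ f P F ↔ w ∈ LG r θ f P F) := by
  have h1 : ∃ u, u ≠ v ∧ π v u ≠ v0 ∧ clG S u = i := by
    obtain ⟨x, rfl⟩ := clG_surj S i
    by_cases hx : x ∈ LG r θ f P F
    · obtain ⟨z, hz1, hz2, _, hz3⟩ := many3 S x v ((π v).symm v0) v hx
      refine ⟨z, hz1, fun h => hz2 ?_, (clG_eq S z x).mpr hz3⟩
      rw [← h, Equiv.symm_apply_apply]
    · refine ⟨x, fun h => hx (h ▸ hv), fun h => hx ?_, rfl⟩
      rw [← pi_LG S v x, h]
      exact hv0
  obtain ⟨u, hu1, hu2, hu3⟩ := h1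
  obtain ⟨w, hw⟩ := (π v0).surjective (π v u)
  have hwv : w ≠ v0 := by rw [← pi_ne' S v0 w, hw]; exact hu2
  refine ⟨u, w, hu1, hwv, hu3, ?_, hw, ?_⟩
  · rw [← hu3, ← tV_cl S v0 hv0 v hv u hu1, ← hw]
    unfold cl1
    rw [← eV_spec S v0 hv0 v0 hv0 w hwv, Equiv.symm_apply_apply]
  · rw [← pi_LG S v u, ← hw, pi_LG S v0 w]

/-- classes in the ground set -/
def npX (S : Setup G H π r κ θ Θ f P F) (i : XG S) : Prop :=
  ∃ x ∈ LG r θ f P F, clG S x = i

/-- the matrix of the classes -/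
def M1 (S : Setup G H π r κ θ Θ f P F) (i j : XG S) : Prop :=
  ∃ x ∈ LG r θ f P F, ∃ y ∈ LG r θ f P F, clG S x = i ∧ clG S y = j ∧ BM θ Θ f P F x y

theorem npX_cl (x : V) : npX S (clG S x) ↔ x ∈ LG r θ f P F := by
  constructor
  · rintro ⟨y, hy, h⟩
    rw [clG_eq] at h
    exact (LG_class S h).mp hy
  · intro hx
    exact ⟨x, hx, rfl⟩

theorem M1_cl (x y : V) : M1 S (clG S x) (clG S y) ↔
    x ∈ LG r θ f P F ∧ y ∈ LG r θ f P F ∧ BM θ Θ f P F x y := by
  constructor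
  · rintro ⟨x', hx', y', hy', h1, h2, h3⟩
    rw [clG_eq] at h1 h2
    exact ⟨(LG_class S h1).mp hx', (LG_class S h2).mp hy', (BM_congr S h1 h2).mp h3⟩
  · rintro ⟨h1, h2, h3⟩
    exact ⟨x, h1, y, h2, rfl, rfl, h3⟩

theorem npX_tV (v0 : V) (hv0 : v0 ∈ LG r θ f P F) (v : V) (hv : v ∈ LG r θ f P F)
    (i : XG S) : npX S (tV S v0 hv0 v i) ↔ npX S i := by
  obtain ⟨u, w, hu, hw, h1, h2, h3, h4⟩ := exists_rep2 S v0 hv0 v hv i
  rw [← h2, ← h1, npX_cl, npX_cl]
  exact h4.symm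

theorem M1_tV (v0 : V) (hv0 : v0 ∈ LG r θ f P F) (v : V) (hv : v ∈ LG r θ f P F)
    (i j : XG S) : M1 S (tV S v0 hv0 v i) (tV S v0 hv0 v j) ↔ M1 S i j := by
  obtain ⟨u, w, hu, hw, h1, h2, h3, h4⟩ := exists_rep2 S v0 hv0 v hv i
  obtain ⟨u', w', hu', hw', h1', h2', h3', h4'⟩ := exists_rep2 S v0 hv0 v hv j
  rw [← h2, ← h1, ← h2', ← h1', M1_cl, M1_cl]
  constructor
  · rintro ⟨a, b, c⟩
    refine ⟨h4.mpr a, h4'.mpr b, ?_⟩
    rw [← MH_iff S v0 v u u' hu hu' (h4.mpr a) (h4'.mpr b), ← h3, ← h3',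
      MH_iff S v0 v0 w w' hw hw' a b]
    exact c
  · rintro ⟨a, b, c⟩
    refine ⟨h4.mp a, h4'.mp b, ?_⟩
    rw [← MH_iff S v0 v0 w w' hw hw' (h4.mp a) (h4'.mp b), h3, h3',
      MH_iff S v0 v u u' hu hu' a b]
    exact c

theorem M1_symm (i j : XG S) (h : M1 S i j) : M1 S j i := by
  obtain ⟨x, hx, y, hy, h1, h2, h3⟩ := h
  exact ⟨y, hy, x, hx, h2, h1, (BM_symm S).mp h3⟩

/-- the colours -/
abbrev Col (S : Setup G H π r κ θ Θ f P F) : Type := Bool × XG S × Set (XG S)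

/-- the matrix of the colours -/
def MC (S : Setup G H π r κ θ Θ f P F) (a b : Col S) : Prop :=
  (a.1 = true ∨ b.1 = true) ∧ (M1 S a.2.1 b.2.1 ∨ (¬ npX S b.2.1 ∧ b.2.1 ∈ a.2.2) ∨
    (¬ npX S a.2.1 ∧ a.2.1 ∈ b.2.2))

theorem MC_symm (a b : Col S) (h : MC S a b) : MC S b a := by
  obtain ⟨h1, h2⟩ := h
  refine ⟨h1.symm, ?_⟩
  rcases h2 with h2 | h2 | h2
  · exact Or.inl (M1_symm S _ _ h2)
  · exact Or.inr (Or.inr h2)
  · exact Or.inr (Or.inl h2)

/-- the classes outside the ground set which are adjacent to `y`, in `G` -/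
def TG (S : Setup G H π r κ θ Θ f P F) (y : V) : Set (XG S) :=
  {i | y ∈ Ln S ∧ ∃ x, x ∉ LG r θ f P F ∧ clG S x = i ∧ G.Adj y x}

/-- the classes outside the ground set which are adjacent to `y`, in `H` -/
def TH (S : Setup G H π r κ θ Θ f P F) (v0 : V) (hv0 : v0 ∈ LG r θ f P F) (y : V) : Set (XG S) :=
  {i | y ∈ Ln S ∧ ∃ x, x ∉ LG r θ f P F ∧ cl1 S v0 hv0 x = i ∧ H.Adj y x}

/-- the colour in `G` -/
noncomputable def cG (S : Setup G H π r κ θ Θ f P F) (y : V) : Col S :=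
  (decide (y ∈ Ln S), clG S y, TG S y)

/-- the colour in `H` -/
noncomputable def cH (S : Setup G H π r κ θ Θ f P F) (v0 : V) (hv0 : v0 ∈ LG r θ f P F) (y : V) :
    Col S := (decide (y ∈ Ln S), cl1 S v0 hv0 y, TH S v0 hv0 y)

/-- the permutation of the colours -/
noncomputable def tC (S : Setup G H π r κ θ Θ f P F) (v0 : V) (hv0 : v0 ∈ LG r θ f P F) (v : V) :
    Equiv.Perm (Col S) :=
  Equiv.prodCongr (Equiv.refl Bool)
    (Equiv.prodCongr (tV S v0 hv0 v) (Equiv.Set.congr (tV S v0 hv0 v)))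

theorem tC_apply (v0 : V) (hv0 : v0 ∈ LG r θ f P F) (v : V) (a : Col S) :
    tC S v0 hv0 v a = (a.1, tV S v0 hv0 v a.2.1, (tV S v0 hv0 v) '' a.2.2) := rfl

theorem MC_tC (v0 : V) (hv0 : v0 ∈ LG r θ f P F) (v : V) (hv : v ∈ LG r θ f P F)
    (a b : Col S) : MC S (tC S v0 hv0 v a) (tC S v0 hv0 v b) ↔ MC S a b := by
  rw [tC_apply, tC_apply]
  unfold MC
  simp only
  rw [M1_tV S v0 hv0 v hv, npX_tV S v0 hv0 v hv, npX_tV S v0 hv0 v hv,
    (tV S v0 hv0 v).injective.mem_set_image, (tV S v0 hv0 v).injective.mem_set_image]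

theorem cG_cH (hn : S_nice) (hF : F ⊆ comps (flipG G f P S.symm) univ) (v0 : V)
    (hv0 : v0 ∈ LG r θ f P F) (v : V) (hv : v ∈ Ln S) (u : V) (hu : u ≠ v) :
    cH S v0 hv0 (π v u) = tC S v0 hv0 v (cG S u) := by
  have hvL := Ln_sub S hv
  have hmap := Ln_maps S hn hF v hv
  rw [tC_apply]
  unfold cH cG
  refine Prod.ext ?_ (Prod.ext ?_ ?_)
  · simp only
    rw [decide_eq_decide]
    exact hmap u
  · exact tV_cl S v0 hv0 v hvL u hu
  · simp only
    ext i
    constructor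
    · rintro ⟨h1, x, hx, hxi, hadj⟩
      obtain ⟨x, rfl⟩ := (π v).surjective x
      rw [pi_LG S] at hx
      have hxv : x ≠ v := fun e => hx (e ▸ hvL)
      rw [S.hyp.adj v u x hu hxv] at hadj
      rw [tV_cl S v0 hv0 v hvL x hxv] at hxi
      exact ⟨clG S x, ⟨(hmap u).mp h1, x, hx, rfl, hadj⟩, hxi⟩
    · rintro ⟨j, ⟨h1, x, hx, rfl, hadj⟩, rfl⟩
      have hxv : x ≠ v := fun e => hx (e ▸ hvL)
      refine ⟨(hmap u).mpr h1, π v x, fun h => hx ((pi_LG S v x).mp h),
        tV_cl S v0 hv0 v hvL x hxv, ?_⟩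
      rw [S.hyp.adj v u x hu hxv]
      exact hadj

theorem MC_in (x y : V) (hx : x ∈ Ln S) (hy : y ∈ Ln S) :
    MC S (cG S x) (cG S y) ↔ BM θ Θ f P F x y := by
  have hxL := Ln_sub S hx
  have hyL := Ln_sub S hy
  unfold MC cG
  simp only
  rw [M1_cl, npX_cl, npX_cl]
  constructor
  · rintro ⟨_, h | h | h⟩
    · exact h.2.2
    · exact absurd hyL h.1
    · exact absurd hxL h.1
  · intro h
    exact ⟨Or.inl (decide_eq_true hx), Or.inl ⟨hxL, hyL, h⟩⟩

theorem MC_out (x y : V) (hx : x ∈ Ln S) (hy : y ∉ Ln S) :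
    G.Adj x y ↔ MC S (cG S x) (cG S y) := by
  have hxL := Ln_sub S hx
  unfold MC cG
  simp only
  rw [M1_cl, npX_cl, npX_cl]
  by_cases hyL : y ∈ LG r θ f P F
  · rw [Ln_closed S x y hx hyL hy]
    constructor
    · intro h
      exact ⟨Or.inl (decide_eq_true hx), Or.inl ⟨hxL, hyL, h⟩⟩
    · rintro ⟨_, h | h | h⟩
      · exact h.2.2
      · exact absurd hyL h.1
      · exact absurd hxL h.1
  · constructor
    · intro h
      exact ⟨Or.inl (decide_eq_true hx), Or.inr (Or.inl ⟨hyL, hx, y, hyL, rfl, h⟩)⟩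
    · rintro ⟨_, h | h | h⟩
      · exact absurd h.2.1 hyL
      · obtain ⟨_, _, z, hz, hzy, hadj⟩ := h
        rw [clG_eq] at hzy
        exact (Ln_nv S x hx z y hz hyL hzy).mp hadj
      · exact absurd hxL h.1

theorem comps_MC : comps (flipG G (cG S) (MC S) (MC_symm S)) (Ln S) = comps (Gh S) (Ln S) := by
  apply comps_congr'
  intro x hx y hy
  show (x ≠ y ∧ ¬ (G.Adj x y ↔ _)) ↔ (x ≠ y ∧ _ ∧ _ ∧ ¬ (G.Adj x y ↔ _))
  rw [MC_in S x y hx hy]
  constructor
  · rintro ⟨a, b⟩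
    exact ⟨a, Ln_sub S hx, Ln_sub S hy, b⟩
  · rintro ⟨a, _, _, b⟩
    exact ⟨a, b⟩

theorem card_Col : Fintype.card (Col S) ≤ 2 * (r * 2 ^ r) := by
  rw [Fintype.card_prod, Fintype.card_prod, Fintype.card_bool, Fintype.card_set]
  have h := card_XG S
  exact Nat.mul_le_mul_left 2 (Nat.mul_le_mul h (Nat.pow_le_pow_right (by norm_num) h))

theorem TY_bound (hflip : S_flip2) (hn : S_nice) (hN : NonIso G H)
    (hF : F ⊆ comps (flipG G f P S.symm) univ) :
    ∃ s : ℕ, (TY θ Θ f P F).card ≤ s * (s + 2) ∧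
      (3 / 2 : ℝ) ^ s ≤ 2 * (((2 * (r * 2 ^ r)).factorial : ℕ) : ℝ) := by
  have hTc := TY_card_ge S
  obtain ⟨C, hC⟩ : (TY θ Θ f P F).Nonempty := card_pos.mp (by omega)
  obtain ⟨v0, hv0C⟩ := S.ne C ((mem_TY C).mp hC).1
  have hv0 := TY_sub_LG S C hC hv0C
  obtain ⟨s, hs1, hs2⟩ := hflip V G H π S.hyp hN (Col S) (Ln S) (cG S) (cH S v0 hv0) (MC S)
    (MC_symm S) (tC S v0 hv0) (Ln_maps S hn hF)
    (fun v hv u hu => cG_cH S hn hF v0 hv0 v hv u hu)
    (fun v hv a b => MC_tC S v0 hv0 v (Ln_sub S hv) a b)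
    (fun x hx y hy => MC_out S x y hx hy)
  refine ⟨s, ?_, hs2.trans ?_⟩
  · rw [comps_MC] at hs1
    exact (card_le_card (TY_Ln S hF)).trans hs1
  · have h1 : ((Fintype.card (Col S)).factorial : ℕ) ≤ (2 * (r * 2 ^ r)).factorial :=
      Nat.factorial_le (card_Col S)
    have h2 : (((Fintype.card (Col S)).factorial : ℕ) : ℝ) ≤
        (((2 * (r * 2 ^ r)).factorial : ℕ) : ℝ) := by exact_mod_cast h1
    linarith

end setup

/-- the next threshold -/
def phi (r κ x : ℕ) : ℕ := 2 * ((r * r + r + 1) * x) + 2 * κ + 8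

theorem phi_mono (r κ : ℕ) : Monotone (phi r κ) := by
  intro x y h
  unfold phi
  have := Nat.mul_le_mul_left (r * r + r + 1) h
  omega

theorem le_phi (r κ x : ℕ) : x ≤ phi r κ x := by
  unfold phi
  have : x ≤ (r * r + r + 1) * x := Nat.le_mul_of_pos_left x (by omega)
  omega

theorem s_recog (hflip : S_flip2) (hn : S_nice) : S_recog := by
  intro r κ
  set B := (phi r κ)^[r * r + r] 0 with hB
  set T := Pool.Agent.TH403.FLP.tt ((2 * (r * 2 ^ r)).factorial) ^ 2 with hT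
  refine ⟨κ + 2 * ((r * r + r) * B) + 10 + T, ?_⟩
  intro V _ G H π hH hN f P hP F hF hclose
  by_contra hcon
  push Not at hcon
  -- the gap
  let NS : Finset ℕ := (univ : Finset (Fin r × Fin r)).image (fun p => mD f P F p.1 p.2) ∪
    (univ : Finset (Fin r)).image (fun q => mq f F q)
  have hNS : NS.card ≤ r * r + r := by
    refine (card_union_le _ _).trans (Nat.add_le_add ?_ ?_)
    · refine card_image_le.trans ?_
      rw [card_univ, Fintype.card_prod, Fintype.card_fin]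
    · refine card_image_le.trans ?_
      rw [card_univ, Fintype.card_fin]
  obtain ⟨j, hj, hgap⟩ := s_gap (r * r + r) (phi r κ) (le_phi r κ) NS hNS
  set θ := (phi r κ)^[j] 0 with hθ
  have hθB : θ ≤ B := by
    have hmono : Monotone (fun j => (phi r κ)^[j] 0) := by
      apply monotone_nat_of_le_succ
      intro j
      show (phi r κ)^[j] 0 ≤ (phi r κ)^[j + 1] 0
      rw [Function.iterate_succ', Function.comp_apply]
      exact le_phi r κ _
    exact hmono hj
  have hΘ : (phi r κ)^[j + 1] 0 = phi r κ θ := by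
    rw [Function.iterate_succ', Function.comp_apply]
  have hmul : (r * r + r) * θ ≤ (r * r + r) * B := Nat.mul_le_mul_left _ hθB
  have S : Setup G H π r κ θ (phi r κ θ) f P F :=
    { hyp := hH
      symm := hP
      adj := by
        intro C hC x hx y hy
        by_contra h
        have hne : y ≠ x := fun e => hx (e ▸ hy)
        have hadj : (flipG G f P hP).Adj y x := by
          refine ⟨hne, fun h' => h ?_⟩
          rw [G.adj_comm, h']
          exact ⟨hP _ _, hP _ _⟩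
        exact hx (comp_closed _ univ C (hF hC) y x hy (mem_univ _) hadj)
      disj := fun C hC D hD x hx hx' => comps_disj _ univ C D (hF hC) (hF hD) x hx hx'
      ne := fun C hC => comps_nonempty _ univ C (hF hC)
      close := hclose
      gapD := fun i j => by
        have := hgap (mD f P F i j)
          (mem_union_left _ (mem_image.mpr ⟨(i, j), mem_univ _, rfl⟩))
        rwa [hΘ] at this
      gapq := fun q => by
        have := hgap (mq f F q) (mem_union_right _ (mem_image.mpr ⟨q, mem_univ _, rfl⟩))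
        rwa [hΘ] at this
      large := le_rfl
      big := by omega }
  obtain ⟨s, hs1, hs2⟩ := TY_bound S hflip hn hN hF
  have h1 : (TY θ (phi r κ θ) f P F).card < T :=
    Pool.Agent.TH87.RVE.lt_sq _ _ ⟨s, hs1, hs2⟩ _ (Pool.Agent.TH403.FLP.tt_spec _)
  have h2 := card_TY S
  have h3 := le_card_sdiff (TY θ (phi r κ θ) f P F) F
  omega

end Pool.Agent.Q215.SD
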