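import Pool.Agent.Q215.SD.Defs

set_option autoImplicit false
set_option linter.unusedSectionVars false

/-!
# Flip-depth and reconstruction: statements of the steps
-/

namespace Pool.Agent.Q215.SD

open Finset Classical
open Pool.Agent.H234RC (Hypo NonIso)
open Pool.Agent.TH87.RVE (comps comp)
open Pool.Agent.TH403.FLP (flipG)

/-- JOB FLIP2. A version of `Pool.Agent.TH403.FLP.flip_bound` (file `TH403/FLP/Abs.lean`) in which
the set `V \ L` is arbitrarily large, but the adjacency between `L` and `V \ L` is determined by
the colours.

PROOF. Copy the proof of `flip_bound` with the following changes. If `comps (flipG G cG M hM) L`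
has fewer than `3` elements take `s = 1`. Otherwise `L` has at least three elements; fix `i0 ∈ L`.
Use the types `Typ V I` (instead of `Typ V ({x // x ∈ A} ⊕ I)`) with the labels
`NG v = {cG v}`, `NH v = {cH v}` and the permutations `α v = τ v` of `I`. Let
`Γ : Subgroup (Equiv.Perm I)` consist of the `g` with `M (g i) (g j) ↔ M i j` for which there is a
permutation `ρ` of `V` with `ρ x ∈ L ↔ x ∈ L` for all `x`, `cG (ρ x) = g (cG x)` for `x ∉ L`, and
`G.Adj (ρ x) (ρ y) ↔ G.Adj x y` for `x, y ∉ L`. For `v ∈ L` the permutation `(τ i0)⁻¹ * τ v` is in
`Γ` with `ρ = (π i0).symm * π v`. Then everything up to `hneq` is as in `flip_bound` (for `v ∈ L`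
one has `H'.Adj (π v x) (π v y) ↔ G'.Adj x y` for `x, y ∈ L`, `x, y ≠ v`, where `G'`, `H'` are
the two flipped graphs with the same `M`).
In `hneq` one gets from `g ∈ Γ` with `ρ` the bijection `σ0 x = σ (cj x) x` on `L` and
`σ0 x = π i0 (ρ x)` outside `L`; on `L` it satisfies `cH (σ0 x) = τ i0 (g (cG x))` as before, outside
`L` the same holds because `cH (π i0 (ρ x)) = τ i0 (cG (ρ x)) = τ i0 (g (cG x))`. So `σ0` preserves
the relation `M` of colours for all pairs of vertices. Pairs inside `L` as before, pairs outside `L`
by the property of `ρ` and of `π i0` (note `ρ x ≠ i0`), and for `x ∈ L`, `y ∉ L` both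
`H.Adj (σ0 x) (σ0 y)` and `G.Adj x y` are given by the colours: `hGL` and the same for `H`, which
follows from `hGL`: given `x ∈ L`, `y ∉ L` choose `v ∈ L` different from `x`; then `x = π v u`,
`y = π v w` with `u ∈ L`, `w ∉ L`, `u, w ≠ v`, hence
`H.Adj x y ↔ G.Adj u w ↔ M (cG u) (cG w) ↔ M (cH x) (cH y)`. The group `Γ` has at most
`(card I)!` elements. -/
def S_flip2 : Prop :=
  ∀ (V : Type) [Fintype V] (G H : SimpleGraph V) (π : V → Equiv.Perm V), Hypo G H π → NonIso G H →
    ∀ (I : Type) [Fintype I] (L : Finset V) (cG cH : V → I) (M : I → I → Prop)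
      (hM : ∀ i j, M i j → M j i) (τ : V → Equiv.Perm I),
      (∀ v ∈ L, ∀ u, π v u ∈ L ↔ u ∈ L) →
      (∀ v ∈ L, ∀ u, u ≠ v → cH (π v u) = τ v (cG u)) →
      (∀ v ∈ L, ∀ i j, M (τ v i) (τ v j) ↔ M i j) →
      (∀ x ∈ L, ∀ y, y ∉ L → (G.Adj x y ↔ M (cG x) (cG y))) →
      ∃ s : ℕ, (comps (flipG G cG M hM) L).card ≤ s * (s + 2) ∧
        (3 / 2 : ℝ) ^ s ≤ 2 * (((Fintype.card I).factorial : ℕ) : ℝ)

/-- JOB LOCAL. Flips of the bad components are put together to one flip.

PROOF. Let `B = Bad r e K U` and choose for each `C ∈ B` a graph `L C`, a partition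
`f C : V → Fin r` and a matrix `M C` as in the definition of `FD r (e + 1) K C`
(`IsFlip r C K (L C)`, and the components of `L C` on `C` have flip-depth at most `e`). Choose an
injection of `B` into `Fin N` (`B.card ≤ N`) and let `j : V → Fin (N + 1)` be `0` if
`comp K U x ∉ B` and `idx (comp K U x) + 1` otherwise. Colour `x` with the pair
`(j x, f (comp K U x) x)` (second coordinate arbitrary, if `comp K U x ∉ B`), and let the matrix be
true for two pairs `(j, a)`, `(j', b)` if `j = j'` is the index of some `C ∈ B` and `M C a b`. Use
`isFlip_of_fintype` with `I = Fin (N + 1) × Fin r`. Let `K'` be the flipped graph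
(`Adj x y := x ≠ y ∧ ¬ (K.Adj x y ↔ matrix)`). Inside `C ∈ B` it agrees with `L C`, inside
`C ∈ comps K U \ B` it agrees with `K`, and it has no edges between different components of `K`. So
a component `D` of `K'` on `U` lies in a component `C` of `K`, and it is a component of `K'` on
`C` (`comps_of_sub`). If `C ∈ B` then `D ∈ comps (L C) C` (`comps_congr'`), so `FD r e (L C) D`,
so `FD r e K' D` by `FD_congr`. If not, then `FD r e K C`, so `FD r e K D` by `FD_mono` and
`FD r e K' D` by `FD_congr`. -/
def S_local : Prop :=
  ∀ (V : Type) [Fintype V] (r : ℕ), 1 ≤ r → ∀ (e N : ℕ) (K : SimpleGraph V) (U : Finset V),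
    (∀ C ∈ comps K U, FD r (e + 1) K C) → (Bad r e K U).card ≤ N →
    ∃ K' : SimpleGraph V, IsFlip ((N + 1) * r) U K K' ∧ ∀ C ∈ comps K' U, FD r e K' C

/-- JOB COUNT (uses `S_local`). If all components of `K` on `U` are bad and a flip with `R` parts
makes all components good, then there are at most `gg r e R` components.

PROOF. Induction on `e`, for all `R`, `U`, `K`, `K'`. Let `(f, M)` be the flip.

`e = 0`: all components of `K` have at least two vertices, so each `C` contains an edge `x y` of
`K` (it is connected), and all components of `K'` on `U` have at most one vertex, so `K'` has no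
edge inside `U`; so `K.Adj x y ↔ M (f x) (f y)` for all different `x, y ∈ U`. The map which sends
`C` to `(f x, f y)` for a chosen edge is injective: if `(f x, f y) = (f x', f y')` for edges of
different components `C`, `C'`, then `M (f x) (f y')` (as `f y' = f y`), so `K.Adj x y'`, which is
impossible for vertices of different components. So there are at most `R * R` components.

Step `e + 1`: for a set `Q` of parts let `J = {C ∈ comps K U : C.image f = Q}`. It is enough to
show `J.card ≤ gg r e (R * ((R + 1) * r)) + 2` (there are `2 ^ R` sets `Q`:
`Finset.card_le_mul_card_image` or `card_eq_sum_card_fiberwise`). Assume `3 ≤ J.card`, and let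
`W = J.biUnion id`. Then `comps K W = J` (`comps_biUnion`), and the components of `K'` on `W` have
flip-depth at most `e + 1` (`comps_mono_sub`, `FD_mono`). Call `q ∈ Q` active if `M q q'` for some
`q' ∈ Q`, and call a vertex of `W` active if its part is active.
(a) Every `C ∈ J` contains an active vertex: otherwise `K` and `K'` agree on `C`, so `C` is
contained in one component of `K'` on `W` (`K` connects it), which has flip-depth at most `e + 1`
with respect to `K'`; so `FD r (e + 1) K C` by `FD_mono` and `FD_congr`, a contradiction.
(b) Every component of `K'` on `W` contains an active vertex: let `S` be the set of the `x ∈ W`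
whose component of `K'` on `W` contains an active vertex. If `y ∈ S`, `x ∈ W`, `K.Adj x y` then
`x ∈ S`: clear if `x` is active; otherwise `¬ M (f x) (f y)`, so `K'.Adj x y`. By (a) and since `C`
is connected, `C ⊆ S` for all `C ∈ J` (`rch_closed`).
(c) Two active vertices `x`, `x'` of the same part `q` are in the same component of `K'` on `W`: let
`M q q'`; choose `C ∈ J` different from the components of `x` and `x'` and `y ∈ C` with `f y = q'`;
`x y` and `x' y` are not edges of `K`, so they are edges of `K'`.
(d) So the number of the components of `K'` on `W` is at most `R` (map a component to the part of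
one of its active vertices). By `S_local` (with `N = R`) there is a flip `K''` of `K'` on `W` with
`(R + 1) * r` parts whose components have flip-depth at most `e`. It is a flip of `K` with
`R * ((R + 1) * r)` parts (`isFlip_trans`), so `J.card ≤ gg r e (R * ((R + 1) * r))` by induction
(bad for `e + 1` implies bad for `e` by `FD_succ`). -/
def S_count : Prop :=
  ∀ (V : Type) [Fintype V] (r : ℕ), 1 ≤ r → ∀ (e R : ℕ) (U : Finset V) (K K' : SimpleGraph V),
    IsFlip R U K K' → (∀ C ∈ comps K U, ¬ FD r e K C) → (∀ C ∈ comps K' U, FD r e K' C) →
    (comps K U).card ≤ gg r e R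

/-- JOB RIGID (uses `S_local` and `S_count`). Two flips of the same graph, whose components have
flip-depth at most `e + 1`, have almost the same bad components.

PROOF. Let `(f, M)` be the flip (`R` parts) which takes `K` to `K'` on `U`, `B = Bad r e K U`, and
let `n p` be the number of the `C ∈ B` which contain a vertex of part `p`. The `R + 1` intervals
`[aa j, aa (j + 1))`, `j ≤ R` (with `aa j = aa r e R j`, which is increasing in `j` if `1 ≤ R`; if
`R = 0` then `V` is empty) are disjoint, so one of them, for some `j`, contains none of the `R`
numbers `n p`. Call `p` small if `n p < aa j`, otherwise it is big, `aa (j + 1) ≤ n p`. Call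
`C ∈ B` typical if it contains no vertex of a small part. At most `R * aa j ≤ kap r e R` of the
`C ∈ B` are not typical. So it is enough to show that the typical `C` are in `Bad r e K' U`. For a
big part `p` at least `aa (j + 1) - R * aa j = NN r e R` of the typical `C` contain a vertex of `p`.

(i) There are no big parts `p0`, `q0` with `M p0 q0`. Assume there are. Call a part `p` active if it
is big and `M p q` for some big `q`, and let `J` be the set of the typical `C` which contain a vertex
of an active part, `W = J.biUnion id`. Then `NN r e R ≤ J.card`, `comps K W = J`. As in the proof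
of `S_count` (b), (c), (d): every component of `K'` on `W` contains a vertex of an active part (all
vertices of `W` are in big parts, so a vertex `x ∈ W` in a part which is not active satisfies
`¬ M (f x) (f y)` for all `y ∈ W`); two vertices `x`, `x'` of `W` in the same active part `p` are in
the same component of `K'` on `W` (let `q` be big with `M p q`; then `q` is active, at least
`NN r e R ≥ 3` typical `C` contain a vertex of `q`, they belong to `J`, and one of them does not
contain `x` or `x'`). So `K'` has at most `R` components on `W`, all of flip-depth at most `e + 1`.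
By `S_local` (`N = R`) and `isFlip_trans` and `S_count`, `J.card ≤ gg r e (R * ((R + 1) * r))`,
which is less than `NN r e R`, a contradiction.

(ii) There are no big part `p` and small part `q` with `M p q` such that some `x ∈ U` is in part `q`.
Assume there are, and let `J` be the set of the typical `C` which contain a vertex of `p`,
`W = J.biUnion id`. By (i) `K` and `K'` agree on `W`. The vertex `x` is in no typical `C`, so it is
not joined by `K` to any vertex of `W` in part `p`
(if `x` is in a component of `K` it is in another one), so it is joined by `K'` to all of them. So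
all `C ∈ J` are in the component `D` of `K'` on `U` which contains `x`. By definition of
`FD r (e + 1) K' D` there is a flip of `K'` on `D` with `r` parts and components of flip-depth at
most `e`, and so the same for `K'` on `W` (`isFlip_mono`, `comps_mono_sub`, `FD_mono`) and, since `K`
and `K'` agree on `W`, for `K` on `W`. By `S_count`, `J.card ≤ gg r e r < NN r e R`, a
contradiction.

(iii) Let `C` be typical. By (i) `K` and `K'` agree on `C`, and by (i), (ii) there are no edges of
`K'` between `C` and `U \ C`. So `C ∈ comps K' U` (`comps_of_closed`), and `¬ FD r e K' C` by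
`FD_congr`. -/
def S_rigid : Prop :=
  ∀ (V : Type) [Fintype V] (r : ℕ), 1 ≤ r → ∀ (e R : ℕ) (U : Finset V) (K K' : SimpleGraph V),
    IsFlip R U K K' → (∀ C ∈ comps K U, FD r (e + 1) K C) →
    (∀ C ∈ comps K' U, FD r (e + 1) K' C) →
    (Bad r e K U \ Bad r e K' U).card ≤ kap r e R

/-- (uses `S_count`) new bad components which arise when a vertex is deleted -/
def S_del : Prop :=
  ∀ (V : Type) [Fintype V] (r : ℕ), 1 ≤ r → ∀ (e : ℕ) (U : Finset V) (K : SimpleGraph V) (v : V),
    (∀ C ∈ comps K U, FD r (e + 1) K C) →
    (Bad r e K (U.erase v) \ Bad r e K U).card ≤ gg r e r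

/-- the image of the members of `F` which do not contain `v` under a permutation -/
noncomputable def tr {V : Type} [Fintype V] (F : Finset (Finset V)) (v : V) (σ : Equiv.Perm V) :
    Finset (Finset V) :=
  (F.filter (fun C => v ∉ C)).image (fun C => C.map σ.toEmbedding)

/-- (uses `S_rigid`, `S_del`) the bad components are almost the same in all cards -/
def S_star : Prop :=
  ∀ (V : Type) [Fintype V] (r : ℕ), 1 ≤ r → ∀ (e R : ℕ) (G H K : SimpleGraph V)
    (π : V → Equiv.Perm V), Hypo G H π → IsFlip R univ G K →
    (∀ C ∈ comps K univ, FD r (e + 1) K C) → ∀ v w : V,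
    (tr (Bad r e K univ) v (π v) \ tr (Bad r e K univ) w (π w)).card ≤
      1 + kap r e (R * R) + 2 * gg r e r

/-- a gap between the members of a small set of numbers -/
def S_gap : Prop :=
  ∀ (N : ℕ) (φ : ℕ → ℕ), (∀ x, x ≤ φ x) → ∀ S : Finset ℕ, S.card ≤ N →
    ∃ j ≤ N, ∀ s ∈ S, s ≤ φ^[j] 0 ∨ φ^[j + 1] 0 < s

/-- JOB NICE. `G'`, `H'` are graphs which are hypomorphic on `L` (all permutations preserve `L`),
`p`, `q` predicates of vertices which correspond to each other. The union of the components of `G'`
on `L` all of whose vertices satisfy `p` is the same set as the union of the components of `H'` on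
`L` all of whose vertices satisfy `q`, provided both are nonempty, and the `π v`, `v` in this set,
preserve it.

PROOF. For a set `U` let `g U` be the union of the `D ∈ comps G' U` with `∀ y ∈ D, p y`, and `h U`
the same for `H'`, `q`. For `v ∈ L` the permutation `π v` maps `L.erase v` onto itself and
is an isomorphism there, so (by `comps_map`) `(g (L.erase v)).map (π v) = h (L.erase v)`; in
particular these two sets have the same cardinality `a v`.
If `v ∈ g L`, then `g (L.erase v) = (g L).erase v` (by `comps_erase` and `comps_eq_union`: the
components of `L.erase v` are the pieces of `D.erase v`, `D` the component of `v`, which all satisfy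
`p`, and the other components of `L`), so `a v = (g L).card - 1`. If `v ∈ L \ g L` then
`g L ⊆ g (L.erase v)`, so `(g L).card ≤ a v`. The same holds for `h`. As both are nonempty it
follows that both `(g L).card` and `(h L).card` are the minimum of the `a v`, `v ∈ L`, plus one, and
that both sets consist of the `v ∈ L` at which the minimum is attained. So `g L = h L`. For `v` in
this set `π v` maps `g (L.erase v) = (g L).erase v` onto `h (L.erase v) = (g L).erase v`, and
`π v v = v`. -/
def S_nice : Prop :=
  ∀ (V : Type) [Fintype V] (G' H' : SimpleGraph V) (L : Finset V) (p q : V → Prop)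
    (π : V → Equiv.Perm V), (∀ v, π v v = v) → (∀ v ∈ L, ∀ u, π v u ∈ L ↔ u ∈ L) →
    (∀ v ∈ L, ∀ x ∈ L, ∀ y ∈ L, x ≠ v → y ≠ v → (H'.Adj (π v x) (π v y) ↔ G'.Adj x y)) →
    (∀ v ∈ L, ∀ x ∈ L, x ≠ v → (q (π v x) ↔ p x)) →
    (∃ D ∈ comps G' L, ∀ y ∈ D, p y) → (∃ D ∈ comps H' L, ∀ y ∈ D, q y) →
    (((comps G' L).filter (fun D => ∀ y ∈ D, p y)).biUnion id =
      ((comps H' L).filter (fun D => ∀ y ∈ D, q y)).biUnion id) ∧
    ∀ v ∈ ((comps G' L).filter (fun D => ∀ y ∈ D, p y)).biUnion id, ∀ u : V,
      π v u ∈ ((comps G' L).filter (fun D => ∀ y ∈ D, p y)).biUnion id ↔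
        u ∈ ((comps G' L).filter (fun D => ∀ y ∈ D, p y)).biUnion id

/-- (uses `S_flip2`, `S_nice`, `S_gap`) a family of components of a flip which is almost the same
in all cards is small -/
def S_recog : Prop :=
  ∀ (r κ : ℕ), ∃ t : ℕ, ∀ (V : Type) [Fintype V] (G H : SimpleGraph V) (π : V → Equiv.Perm V),
    Hypo G H π → NonIso G H → ∀ (f : V → Fin r) (P : Fin r → Fin r → Prop)
      (hP : ∀ i j, P i j → P j i) (F : Finset (Finset V)), F ⊆ comps (flipG G f P hP) univ →
      (∀ v w : V, (tr F v (π v) \ tr F w (π w)).card ≤ κ) → F.card < t

end Pool.Agent.Q215.SD
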